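import Pool.Agent.U222.DB.Pub

/-!
# Cyclic curves and simple curves are wide
-/

set_option autoImplicit false

open CategoryTheory AlgebraicGeometry TensorProduct

universe u

namespace Pool.Agent.U222.DB

open Pool.Agent.H914 Pool.Agent.H914.VarClass Pool.Agent.H914.VarClass.Obj Pool.Agent.Y121.AHS
open Pool.Agent.U222.HC (GVar Sub Has InSpan)
open Pool.Agent.U222.HC.I (em_zero em_injective grL_top smL_eq)

variable {k : Type u} [Field k] {𝒱 : VarClass k} {ops : CycleOps 𝒱} {T : HodgeTheory ops}
  {X Y Z : 𝒱.Obj}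

lemma has_span {U : HL T.W ℂ X → Prop} (h : IsRationalSub T U) (x : HL T.W ℂ X) :
    Has T (X := X) (Submodule.span ℂ {x | U x}) x ↔ U x :=
  ⟨fun hx => h.closed x hx, fun hx => Submodule.subset_span hx⟩

lemma isSub_span {U : HL T.W ℂ X → Prop} (h : IsHodgeSub T U) :
    HC.IsSubstructure T 1 (X := X) (Submodule.span ℂ {x | U x}) := by
  have h1 : Has T (X := X) (Submodule.span ℂ {x | U x}) = U :=
    funext fun x => propext (has_span h.toIsRationalSub x)
  exact isSub_of_hodge (h1.symm ▸ h)

/-- The internal form of wideness implies the given form. -/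
lemma wide_of_int {b : ℕ} (hc : X.dim = 1) (hn : betti T X 0 ≠ 0)
    (h : ∀ U : Submodule ℂ (HL T.W ℂ X), HC.IsSubstructure T 1 (X := X) U →
      (∀ x ∈ U, x ∈ grL T.W ℂ X 1) → (∃ x ∈ U, x ≠ 0) → b < Module.finrank ℂ U) :
    IsWide T X b := by
  refine ⟨hc, hn, fun U hU => ?_⟩
  by_cases h0 : dimension T U = 0
  · exact Or.inl h0
  · refine Or.inr (h _ (isSub_span hU)
      (fun x hx => hU.degree x ((has_span hU.toIsRationalSub x).1 hx)) ?_)
    by_contra hno
    push Not at hno
    apply h0
    have h1 : Submodule.span ℂ {x | U x} = ⊥ := (Submodule.eq_bot_iff _).2 hno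
    rw [dimension, h1]
    exact finrank_bot ℂ _

section cyclic

variable {N : ℕ} (g : X ⟶ X)

/-- The powers of `g`. -/
noncomputable def iter (n : ℕ) : X ⟶ X := (fun f : X ⟶ X => f ≫ g)^[n] (𝟙 X)

lemma iter_succ (n : ℕ) : iter g (n + 1) = iter g n ≫ g := by
  rw [iter, Function.iterate_succ_apply', ← iter]

lemma iter_zero : iter g 0 = 𝟙 X := rfl

lemma iter_add (m n : ℕ) : iter g (m + n) = iter g m ≫ iter g n := by
  induction n with
  | zero => rw [iter_zero, Category.comp_id, add_zero]
  | succ n ih => rw [← add_assoc, iter_succ, ih, iter_succ, Category.assoc]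

lemma iter_mul (h : iter g N = 𝟙 X) (m : ℕ) : iter g (N * m) = 𝟙 X := by
  induction m with
  | zero => rw [mul_zero, iter_zero]
  | succ m ih => rw [mul_add, mul_one, iter_add, ih, h, Category.comp_id]

lemma iter_mod (h : iter g N = 𝟙 X) (m : ℕ) : iter g (m % N) = iter g m := by
  conv_rhs => rw [← Nat.div_add_mod m N]
  rw [iter_add, iter_mul g h, Category.id_comp]

/-- The variety with the action of the cyclic group. -/
noncomputable def cyc [NeZero N] (h : iter g N = 𝟙 X) : GVar 𝒱 where
  X := X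
  G := ZMod N
  act n := iter g n.val
  act_zero := by
    show iter g (0 : ZMod N).val = 𝟙 X
    rw [ZMod.val_zero, iter_zero]
  act_add m n := by
    show iter g (m + n).val = iter g m.val ≫ iter g n.val
    rw [ZMod.val_add, iter_mod g h, iter_add]

lemma cyc_order [NeZero N] (h : iter g N = 𝟙 X) : (cyc g h).order = N := by
  show Fintype.card (ZMod N) = N
  exact ZMod.card N

/-- Eigenvectors of the group are eigenvectors of `g`. -/
lemma eigen_of (hN : 1 < N) [NeZero N] (h : iter g N = 𝟙 X) {χ : AddChar (ZMod N) ℂ}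
    {x : HL T.W ℂ X} (hx : HC.I.IsEigenvector T (cyc g h) χ x) : IsEigen T g (χ 1) x := by
  have h1 := hx (1 : ZMod N)
  have h2 : (cyc g h).act (1 : ZMod N) = g := by
    show iter g (1 : ZMod N).val = g
    haveI : Fact (1 < N) := ⟨hN⟩
    rw [ZMod.val_one, iter_succ, iter_zero, Category.id_comp]
  rw [h2] at h1
  exact h1

end cyclic

lemma algebraic_of_prD (hX : X.dim = 1) {x : T.W.H X}
    (h : HC.I.prD T X 1 (emL T.W ℂ x) = 0) : HC.I.IsAlgebraic T x := by
  have h2 : ∀ y : T.W.H X, ∃ y', emL T.W ℂ y' + HC.I.prD T X 1 (emL T.W ℂ y) = emL T.W ℂ y ∧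
      HC.I.IsAlgebraic T y' := by
    intro y
    induction y using HC.I.gr_ind T with
    | h0 => exact ⟨0, by rw [em_zero, map_zero, add_zero], Submodule.zero_mem _⟩
    | ha x y hx hy =>
      obtain ⟨x', hx, hx'⟩ := hx
      obtain ⟨y', hy, hy'⟩ := hy
      refine ⟨x' + y', ?_, Submodule.add_mem _ hx' hy'⟩
      rw [HC.I.em_add, HC.I.em_add, map_add, add_add_add_comm, hx, hy]
    | hg i a ha =>
      by_cases hi : i = 1
      · refine ⟨0, ?_, Submodule.zero_mem _⟩
        rw [DBO.I.prD_em ha, if_pos (by rw [hi]; exact Nat.cast_one), em_zero, zero_add]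
      · refine ⟨a, ?_, DBO.I.algebraic_of_even hX hi ha⟩
        rw [DBO.I.prD_em ha, if_neg (by exact_mod_cast hi), add_zero]
  obtain ⟨x', h3, h4⟩ := h2 x
  rw [h, add_zero] at h3
  rwa [← em_injective T h3]

lemma char_one {N : ℕ} (hN : 1 < N) {z : ℂ} (hz : z ^ N = 1) [NeZero N] :
    AddChar.zmodChar N hz 1 = z := by
  haveI : Fact (1 < N) := ⟨hN⟩
  rw [AddChar.zmodChar_apply, ZMod.val_one, pow_one]

/-- **Cyclic curves of large prime degrees are wide.** -/
theorem wide_of_cyclic {g : X ⟶ X} {N a b : ℕ} (h : IsCyclicCurve T X g N a)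
    (hb : a ^ 2 * b + a < N) : IsWide T X b := by
  classical
  haveI : NeZero N := ⟨h.prime.ne_zero⟩
  have hN : 1 < N := h.prime.one_lt
  have ho : iter g N = 𝟙 X := h.order
  obtain ⟨z, hz1, hzN, hext⟩ := h.extreme
  have hcur : DBO.IsCyclicCurve T (cyc g ho) a := by
    refine ⟨h.curve, ?_, h.two_le, nontrivial_of_betti h.nonzero, fun x hx => ?_,
      fun χ x hχ hx => ?_, ?_⟩
    · rw [cyc_order]
      exact h.prime
    · -- invariant classes
      change T.W.H X at x
      have hg : T.W.map g x = x := by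
        have h1 := hx (1 : ZMod N)
        have h2 : (cyc g ho).act (1 : ZMod N) = g := by
          show iter g (1 : ZMod N).val = g
          haveI : Fact (1 < N) := ⟨hN⟩
          rw [ZMod.val_one, iter_succ, iter_zero, Category.id_comp]
        rw [h2] at h1
        exact h1
      have h1 : HC.I.prD T X 1 (emL T.W ℂ x) = 0 := by
        refine h.invariants _ (DBO.I.prD_mem T (i := 1) _) ?_
        show Y121.AHS.mapL g _ = smL (1 : ℂ) _
        rw [smL_one, HC.I.mapL_eq, HC.I.prD, ← DBO.I.prS_pl, HC.I.pl_em, hg]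
      exact algebraic_of_prD h.curve h1
    · refine h.types _ _ (fun h1 => hχ fun n => ?_) (eigen_of g hN ho hx)
      change ZMod N at n
      change AddChar (ZMod N) ℂ at χ
      show χ n = 1
      have h2 : n = n.val • (1 : ZMod N) := by
        rw [nsmul_eq_mul, mul_one, ZMod.natCast_zmod_val]
      rw [h2, AddChar.map_nsmul_eq_pow, h1, one_pow]
    · refine ⟨AddChar.zmodChar N hzN, fun h1 => hz1 ?_, fun j hj hja x => ⟨fun hx => ?_, fun hx => ?_⟩⟩
      · have h2 := h1 (1 : ZMod N)
        rw [← char_one hN hzN]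
        exact h2
      · rw [cyc_order] at hja
        refine (hext j hj hja x).1 ?_
        have h2 := eigen_of (χ := (AddChar.zmodChar N hzN) ^ j) g hN ho hx
        rwa [AddChar.pow_apply, char_one hN hzN] at h2
      · rw [cyc_order] at hja
        refine (hext j hj hja x).2 ?_
        rw [cyc_order] at hx
        have h2 := eigen_of (χ := (AddChar.zmodChar N hzN) ^ (N - j)) g hN ho hx
        rwa [AddChar.pow_apply, char_one hN hzN] at h2
  have hw := DBO.I.wide_of_cyclic hcur (b := b) (by rw [cyc_order]; exact hb)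
  exact wide_of_int h.curve h.nonzero fun U hU hdeg hne => hw.wide U hU hdeg hne

end Pool.Agent.U222.DB
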