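import Pool.Agent.Y121.AHS.Defs
import Pool.Agent.U222.HC.Gal

/-!
# De Rham-Betti classes on products of curves with arbitrary varieties: definitions

In the intended use `k` is the field of the algebraic numbers in `ℂ`, `𝒱` is the class of all smooth
projective varieties over `k`, `T` is the Hodge theory `X ↦ H(X(ℂ), ℚ)`, and `F = k`.
-/

set_option autoImplicit false

open CategoryTheory AlgebraicGeometry TensorProduct

universe u

namespace Pool.Agent.U222.DB

open Pool.Agent.H914 Pool.Agent.H914.VarClass Pool.Agent.H914.VarClass.Obj Pool.Agent.Y121.AHS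
  Pool.Agent.U222.HC

variable {k : Type u} [Field k] {𝒱 : VarClass k} {ops : CycleOps 𝒱} (T : HodgeTheory ops)
  {X : 𝒱.Obj}

/-- The number `2 π i`. -/
noncomputable def twoPiI : ℂ := 2 * Real.pi * Complex.I

/-- The class `x` is a linear combination with complex coefficients of the classes `y` with the
property `P`. -/
def IsCombination (P : HL T.W ℂ X → Prop) (x : HL T.W ℂ X) : Prop :=
  x ∈ Submodule.span ℂ {y | P y}

/-- De Rham cohomology: for each variety `X` a subspace `dR X` over the field `F` of the cohomology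
with complex coefficients, whose elements of degree `i` span the cohomology of degree `i`, which is
stable under products and pull-backs and contains the classes `(2 π i) ^ j cl(z)` of the algebraic
cycles `z` of codimension `j`, and on which the values of the trace are in `(2 π i) ^ dim X F`. -/
structure DeRham (F : Subfield ℂ) where
  /-- the de Rham cohomology -/
  dR : ∀ X : 𝒱.Obj, HL T.W ℂ X → Prop
  lin : ∀ X, ∀ r ∈ F, ∀ s ∈ F, ∀ a b, dR X a → dR X b → dR X (smL r a + smL s b)
  span : ∀ X i a, IsDeg i a → IsCombination T (fun b => dR X b ∧ IsDeg i b) a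
  mul : ∀ X a b, dR X a → dR X b → dR X (mulL a b)
  map : ∀ {X Y : 𝒱.Obj} (f : X ⟶ Y) (a), dR Y a → dR X (mapL f a)
  cyc : ∀ X j z, X.IsCyc j z → dR X (twL twoPiI j (emL T.W ℂ (T.W.cl X z)))
  tr : ∀ X a, dR X a → ∃ r ∈ F, trL a = twoPiI ^ X.dim * r

variable {T} {F : Subfield ℂ}

/-- The de Rham-Betti classes of codimension `j`: the classes `c` in `H^(2 j)(X, ℚ)` such that
`(2 π i) ^ j c` lies in the de Rham cohomology. -/
def IsDRB (D : DeRham T F) (X : 𝒱.Obj) (j : ℕ) (c : T.W.H X) : Prop :=
  IsDeg (2 * j) (emL T.W ℂ c) ∧ D.dR X (twL twoPiI j (emL T.W ℂ c))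

/-- The Grothendieck period conjecture `GPC^j` for `X`. -/
def GPC (D : DeRham T F) (X : 𝒱.Obj) (j : ℕ) : Prop :=
  ∀ c, IsDRB D X j c → ∃ z, X.IsCyc j z ∧ T.W.cl X z = c

variable (T)

/-- The action `z ⊗ c ↦ σ z ⊗ c` of the automorphism `σ` of `ℂ` on the cohomology with complex
coefficients. -/
noncomputable def conj (σ : ℂ ≃+* ℂ) (x : HL T.W ℂ X) : HL T.W ℂ X := extAut T.rat σ x

/-- The set `U` is a subspace of `H¹(X, ℂ)` that is defined over `ℚ`: it is stable under the
automorphisms of `ℂ`. -/
structure IsRationalSub (U : HL T.W ℂ X → Prop) : Prop where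
  closed : ∀ x, IsCombination T U x → U x
  degree : ∀ x, U x → IsDeg 1 x
  conj : ∀ (σ : ℂ ≃+* ℂ) (x), U x → U (conj T σ x)

/-- The set `U` is a Hodge substructure of `H¹(X)`: a subspace that is defined over `ℚ` and is spanned
by classes of pure types. -/
structure IsHodgeSub (U : HL T.W ℂ X → Prop) : Prop extends IsRationalSub T U where
  types : ∀ x, U x → IsCombination T (fun y => U y ∧ ∃ p q, IsType T.pq p q y) x

variable {T} in
/-- The theorem of Wüstholz on `H¹`: a subspace `U` of `H¹(X, ℂ)` that is defined over `ℚ` and is spanned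
by classes in the de Rham cohomology is a Hodge substructure. -/
def WuestholzTheorem (D : DeRham T F) : Prop :=
  ∀ (X : 𝒱.Obj) (U : HL T.W ℂ X → Prop), IsRationalSub T U →
    (∀ x, U x → IsCombination T (fun y => U y ∧ D.dR X y) x) → IsHodgeSub T U

/-- The dimension of the span of the set `U`. -/
noncomputable def dimension (U : HL T.W ℂ X → Prop) : ℕ :=
  Module.finrank ℂ (Submodule.span ℂ {x | U x})

/-- The Betti number `b_i(Z)`. -/
noncomputable def betti (Z : 𝒱.Obj) (i : ℕ) : ℕ := dimension T (X := Z) (IsDeg i)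

/-- The curve `X` is *wide* with respect to `b`: every nonzero Hodge substructure of `H¹(X)` is of
dimension greater than `b`; so the Jacobian variety has no nonzero abelian subvariety of dimension at
most `b / 2`. (For all varieties `b_0(X) = 1`.) -/
structure IsWide (X : 𝒱.Obj) (b : ℕ) : Prop where
  curve : X.dim = 1
  nonzero : betti T X 0 ≠ 0
  wide : ∀ U : HL T.W ℂ X → Prop, IsHodgeSub T U → dimension T U = 0 ∨ b < dimension T U

/-- The class `x` is an eigenvector of `g` with the eigenvalue `z`. -/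
def IsEigen (g : X ⟶ X) (z : ℂ) (x : HL T.W ℂ X) : Prop := mapL g x = smL z x

/-- The curve `X` with the automorphism `g` of prime order `N` has the Hodge theory of the curve
`y ^ N = f (x)` with the automorphism `y ↦ e ^ (2 π i / N) y`, where `f` is a product of powers of linear
polynomials with the sum `a ≥ 2` of the exponents, `a < N`:

* there are no nonzero invariant classes in `H¹(X, ℂ)`;
* the eigenvectors with an eigenvalue `z ≠ 1` are sums of classes of types `(1, 0)` and `(0, 1)`;
* for a primitive root of unity `z` of order `N` and all `j` with `0 < j < N / a` the eigenvectors with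
  the eigenvalue `z ^ j` are of type `(1, 0)`, and those with the eigenvalue `z ^ (N - j)` are of type
  `(0, 1)`. -/
structure IsCyclicCurve (X : 𝒱.Obj) (g : X ⟶ X) (N a : ℕ) : Prop where
  curve : X.dim = 1
  nonzero : betti T X 0 ≠ 0
  prime : N.Prime
  two_le : 2 ≤ a
  order : (fun f : X ⟶ X => f ≫ g)^[N] (𝟙 X) = 𝟙 X
  invariants : ∀ x : HL T.W ℂ X, IsDeg 1 x → IsEigen T g 1 x → x = 0
  types : ∀ (z : ℂ) (x), z ≠ 1 → IsEigen T g z x →
    IsCombination T (fun y => IsType T.pq 1 0 y ∨ IsType T.pq 0 1 y) x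
  extreme : ∃ z : ℂ, z ≠ 1 ∧ z ^ N = 1 ∧ ∀ j : ℕ, 0 < j → j * a < N → ∀ x,
    (IsEigen T g (z ^ j) x → IsType T.pq 1 0 x) ∧ (IsEigen T g (z ^ (N - j)) x → IsType T.pq 0 1 x)

/-- The product `X_1 × (X_2 × (⋯ × Z))`. -/
noncomputable def tower : List 𝒱.Obj → 𝒱.Obj → 𝒱.Obj
  | [], Z => Z
  | X :: L, Z => X.prod (tower L Z)

/-- Each curve `X_i` is wide with respect to all Betti numbers of odd degree of
`X_(i+1) × (⋯ × Z)`. -/
def IsLarge : List 𝒱.Obj → 𝒱.Obj → Prop
  | [], _ => True
  | X :: L, Z => (∀ i, Odd i → IsWide T X (betti T (tower L Z) i)) ∧ IsLarge L Z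

variable {T}

/-- The class `x` is a product `a × b` of codimension `w` on `X × Z`, where `a` is the class of an
algebraic cycle on `X` and `b` is a de Rham-Betti class on `Z`. -/
def IsProduct (D : DeRham T F) (X Z : 𝒱.Obj) (w : ℕ) (x : T.W.H (X.prod Z)) : Prop :=
  ∃ (j l : ℕ) (a : X.Cycles) (b : T.W.H Z), j + l = w ∧ X.IsCyc j a ∧ IsDRB D Z l b ∧
    emL T.W ℂ x =
      mulL (mapL (fst X Z) (emL T.W ℂ (T.W.cl X a))) (mapL (snd X Z) (emL T.W ℂ b))

/-- The conclusions for the variety `V = X_1 × (⋯ × Z)`: the period conjecture for `V` is equivalent to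
the one for `Z`, also in the codimensions at most `r`, and follows from the one for `Z` in the
codimensions at most `dim Z / 2`; it is true if `dim Z ≤ 1`, and if `dim Z ≤ 3` and `GPC^1` is true for
`Z`. -/
structure Conclusions (D : DeRham T F) (V Z : 𝒱.Obj) : Prop where
  iff : (∀ j, GPC D V j) ↔ ∀ j, GPC D Z j
  iff_le : ∀ r, (∀ j ≤ r, GPC D V j) ↔ ∀ j ≤ r, GPC D Z j
  half : (∀ j, 2 * j ≤ Z.dim → GPC D Z j) → ∀ j, GPC D V j
  curve : Z.dim ≤ 1 → ∀ j, GPC D V j
  threefold : Z.dim ≤ 3 → GPC D Z 1 → ∀ j, GPC D V j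

end Pool.Agent.U222.DB
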