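import Pool.Agent.U222.DB.Old
import Pool.Agent.U222.HD.Fin

/-!
# Cyclic coverings of the projective line are wide curves
-/

set_option autoImplicit false

open CategoryTheory AlgebraicGeometry TensorProduct

universe u

namespace Pool.Agent.U222.DBO.W

open Pool.Agent.H914 Pool.Agent.H914.VarClass Pool.Agent.H914.VarClass.Obj Pool.Agent.Y121.AHS
  Pool.Agent.U222.HC.I
open Pool.Agent.U222.HC (GVar conj Sub Has IsCombination isTrivial_iff)

variable {k : Type u} [Field k] {𝒱 : VarClass k} {ops : CycleOps 𝒱} (T : HodgeTheory ops)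
  {X Y Z : 𝒱.Obj}

instance finHL' (X : 𝒱.Obj) : FiniteDimensional ℂ (HL T.W ℂ X) :=
  (inferInstance : FiniteDimensional ℂ (ℂ ⊗[T.W.K] T.W.H X))

lemma prS_pl (S : ℤ × ℤ → Prop) (f : X ⟶ Y) (x : HL T.W ℂ Y) :
    prS T X S (pl T f x) = pl T f (prS T Y S x) := by
  classical
  induction x using ty_ind T with
  | h0 => rw [map_zero, map_zero, map_zero, map_zero]
  | ha x y hx hy => rw [map_add, map_add, map_add, map_add, hx, hy]
  | he r x hx =>
    have h1 : pl T f x ∈ T.pq X r.1 r.2 := T.map _ _ _ _ _ _ hx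
    rw [prS_of_mem T S h1, prS_of_mem T S hx]
    split_ifs
    · rfl
    · rw [map_zero]

/-- The operators preserve substructures. -/
lemma en_sub {N : ℕ} {U : Submodule ℂ (HL T.W ℂ X)} (hU : HC.IsSubstructure T N (X := X) U)
    (τ : ℂ ≃+* ℂ) {x : HL T.W ℂ X} (hx : x ∈ U) : en T τ x ∈ U := by
  have h1 := hU.hodge τ x hx
  rw [en_apply]
  change conj T τ x ∈ Submodule.span ℂ _ at h1
  generalize conj T τ x = v at h1
  induction h1 using Submodule.span_induction with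
  | mem y hy =>
    obtain ⟨⟨p, q, hpq⟩, x', hx', rfl⟩ := hy
    by_cases h : p - q ≤ -1
    · rw [prS_yes T (r := (p, q)) hpq h, conj_symm]
      exact hx'
    · rw [prS_no T (r := (p, q)) hpq h, conj_zero]
      exact Submodule.zero_mem _
  | zero => rw [map_zero, conj_zero]; exact Submodule.zero_mem _
  | add a b _ _ ha hb => rw [map_add, conj_add]; exact Submodule.add_mem _ ha hb
  | smul z a _ ha => rw [map_smul, conj_smul]; exact Submodule.smul_mem _ _ ha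

variable (A : GVar 𝒱)

lemma en_pl (τ : ℂ ≃+* ℂ) (f : X ⟶ X) (x : HL T.W ℂ X) :
    en T τ (pl T f x) = pl T f (en T τ x) := by
  rw [en_apply, en_apply, conj_pl, prS_pl, conj_pl]

lemma en_eg (τ : ℂ ≃+* ℂ) (ψ : AddChar A.G ℂ) (x : HL T.W ℂ A.X) :
    eg T A ψ (en T τ x) = en T τ (eg T A ψ x) := by
  rw [eg_apply, eg_apply, map_smul, map_sum]
  congr 1
  refine Finset.sum_congr rfl fun g _ => ?_
  rw [map_smul, en_pl]

lemma conj_eigen (τ : ℂ ≃+* ℂ) {ψ : AddChar A.G ℂ} {x : HL T.W ℂ A.X}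
    (hx : IsEigenvector T A ψ x) : IsEigenvector T A (cc τ ψ) (conj T τ x) := by
  intro g
  have h1 := hx g
  rw [mapL_eq, smL_eq] at h1 ⊢
  rw [← conj_pl, h1, conj_smul]
  rfl

/-- Operators which separate eigenspaces. -/
lemma exists_op {ι : Type} [Fintype ι] (ψ : ι → AddChar A.G ℂ)
    (W : Submodule ℂ (HL T.W ℂ A.X))
    (hE : ∀ j l, j ≠ l → ∃ E : HL T.W ℂ A.X →ₗ[ℂ] HL T.W ℂ A.X,
      (∀ φ x, eg T A φ (E x) = E (eg T A φ x)) ∧ (∀ v ∈ W, E v ∈ W) ∧
      (∀ v, E (eg T A (ψ j) v) = eg T A (ψ j) v) ∧ ∀ v, E (eg T A (ψ l) v) = 0) (j : ι) :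
    ∃ E : HL T.W ℂ A.X →ₗ[ℂ] HL T.W ℂ A.X,
      (∀ φ x, eg T A φ (E x) = E (eg T A φ x)) ∧ (∀ v ∈ W, E v ∈ W) ∧
      (∀ v, E (eg T A (ψ j) v) = eg T A (ψ j) v) ∧ ∀ l, l ≠ j → ∀ v, E (eg T A (ψ l) v) = 0 := by
  classical
  have key : ∀ S : Finset ι, j ∉ S → ∃ E : HL T.W ℂ A.X →ₗ[ℂ] HL T.W ℂ A.X,
      (∀ φ x, eg T A φ (E x) = E (eg T A φ x)) ∧ (∀ v ∈ W, E v ∈ W) ∧
      (∀ v, E (eg T A (ψ j) v) = eg T A (ψ j) v) ∧ ∀ l ∈ S, ∀ v, E (eg T A (ψ l) v) = 0 := by
    intro S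
    induction S using Finset.induction_on with
    | empty => exact fun _ => ⟨LinearMap.id, fun _ _ => rfl, fun _ hv => hv, fun _ => rfl,
        fun l hl => absurd hl (Finset.notMem_empty l)⟩
    | insert l S hl ih =>
      intro hj
      rw [Finset.mem_insert, not_or] at hj
      obtain ⟨E, h1, h0, h2, h3⟩ := ih hj.2
      obtain ⟨F, k1, k0, k2, k3⟩ := hE j l hj.1
      refine ⟨E ∘ₗ F, fun φ x => ?_, fun v hv => h0 _ (k0 v hv), fun v => ?_, fun i hi v => ?_⟩
      · rw [LinearMap.comp_apply, h1, k1, LinearMap.comp_apply]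
      · rw [LinearMap.comp_apply, k2 v, h2 v]
      · rw [LinearMap.comp_apply]
        rcases Finset.mem_insert.1 hi with rfl | hi
        · rw [k3 v, map_zero]
        · rw [← k1, h3 i hi]
  obtain ⟨E, h1, h0, h2, h3⟩ := key (Finset.univ.erase j) (Finset.notMem_erase j _)
  exact ⟨E, h1, h0, h2, fun l hl => h3 l (Finset.mem_erase.2 ⟨hl, Finset.mem_univ l⟩)⟩

lemma prD_one_of_algebraic {x : T.W.H X} (hx : IsAlgebraic T x) :
    prD T X 1 (emL T.W ℂ x) = 0 := by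
  induction hx using Submodule.span_induction with
  | mem a ha =>
    obtain ⟨j, z, hz, rfl⟩ := ha
    refine prS_no T (r := ((j : ℤ), (j : ℤ))) (S := fun r : ℤ × ℤ => r.1 + r.2 = 1)
      (T.cyc X j z hz).2 ?_
    show ¬ ((j : ℤ) + j = 1)
    omega
  | zero => rw [em_zero, map_zero]
  | add x y _ _ hx hy => rw [em_add, map_add, hx, hy, add_zero]
  | smul r x _ hx => rw [em_smul, map_smul, hx, smul_zero]

lemma prD_one_eg (hA : InvAlg T A) (x : HL T.W ℂ A.X) : prD T A.X 1 (eg T A 1 x) = 0 := by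
  change ℂ ⊗[T.W.K] T.W.H A.X at x
  induction x using TensorProduct.induction_on with
  | zero => exact ((prD T A.X 1 ∘ₗ eg T A 1).map_zero)
  | tmul z a =>
    have h1 : (z ⊗ₜ[T.W.K] a : ℂ ⊗[T.W.K] T.W.H A.X) = z • (emL T.W ℂ a : HL T.W ℂ A.X) := by
      show _ = z • ((1 : ℂ) ⊗ₜ[T.W.K] a)
      rw [TensorProduct.smul_tmul', smul_eq_mul, mul_one]
    have h2 : prD T A.X 1 (eg T A 1 (z • emL T.W ℂ a)) = 0 := by
      rw [map_smul, map_smul, ← em_avg, prD_one_of_algebraic T (hA _ (avg_inv T A a)), smul_zero]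
    exact h1 ▸ h2
  | add x y hx hy =>
    exact ((prD T A.X 1 ∘ₗ eg T A 1).map_add _ _).trans
      ((congrArg₂ (fun x y : HL T.W ℂ A.X => x + y) hx hy).trans (add_zero 0))

/-- **Curves with separated conjugates are wide.** -/
theorem wide_of_separ (hA : InvAlg T A) {b : ℕ} (hS : IsSepar T A 1 b)
    (U : Submodule ℂ (HL T.W ℂ A.X)) (hU : HC.IsSubstructure T 1 (X := A.X) U)
    (hdeg : ∀ x ∈ U, x ∈ grL T.W ℂ A.X 1) (hne : ∃ x ∈ U, x ≠ 0) :
    b < Module.finrank ℂ U := by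
  classical
  obtain ⟨x, hx, hx0⟩ := hne
  obtain ⟨χ, hχ, hχx⟩ : ∃ χ : AddChar A.G ℂ, χ ≠ 1 ∧ eg T A χ x ≠ 0 := by
    by_contra hno
    push Not at hno
    apply hx0
    have h1 : eg T A 1 x = x := by
      conv_rhs => rw [← eg_sum T A x]
      exact (Finset.sum_eq_single_of_mem _ (Finset.mem_univ _) fun χ _ hχ => hno χ hχ).symm
    have h2 := prD_one_eg T A hA x
    rw [h1, prD_of_mem T (hdeg x hx), if_pos Nat.cast_one] at h2
    exact h2
  obtain ⟨σ, -, hsep⟩ := hS χ hχ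
  have hE : ∀ j l, j ≠ l → ∃ E : HL T.W ℂ A.X →ₗ[ℂ] HL T.W ℂ A.X,
      (∀ φ x, eg T A φ (E x) = E (eg T A φ x)) ∧ (∀ v ∈ U, E v ∈ U) ∧
      (∀ v, E (eg T A (cc (σ j) χ) v) = eg T A (cc (σ j) χ) v) ∧
      ∀ v, E (eg T A (cc (σ l) χ) v) = 0 := by
    intro j l hjl
    obtain ⟨τ, h1, h2⟩ := hsep l j (Ne.symm hjl)
    refine ⟨en T τ, fun φ x => en_eg T A τ φ x, fun v hv => en_sub T hU τ hv, fun v => ?_,
      fun v => ?_⟩
    · rw [en_apply, prS_below T le_rfl (h2 _ (conj_eigen T A τ (eg_eigen T A _ v))), conj_symm]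
    · rw [en_apply, prS_above T zero_le_one (h1 _ (conj_eigen T A τ (eg_eigen T A _ v))),
        conj_zero]
  choose E h1 h0 h2 h3 using fun j => exists_op T A (fun j => cc (σ j) χ) U hE j
  let y : Fin (b + 1) → HL T.W ℂ A.X := fun j => E j (conj T (σ j) x)
  have hy : ∀ j, y j ∈ U := fun j => h0 j _ (hU.rational (σ j) (fun z hz => by
    rw [pow_one] at hz
    rw [hz, map_one]) x hx)
  have hy1 : ∀ j, eg T A (cc (σ j) χ) (y j) = conj T (σ j) (eg T A χ x) := by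
    intro j
    show eg T A (cc (σ j) χ) (E j (conj T (σ j) x)) = _
    rw [h1, h2, conj_eg]
  have hy2 : ∀ j l, l ≠ j → eg T A (cc (σ l) χ) (y j) = 0 := by
    intro j l hjl
    show eg T A (cc (σ l) χ) (E j (conj T (σ j) x)) = _
    rw [h1, h3 j l hjl]
  have hli : LinearIndependent ℂ y := by
    rw [Fintype.linearIndependent_iff]
    intro g hg l
    have h4 := congrArg (eg T A (cc (σ l) χ)) hg
    rw [map_zero, map_sum, Finset.sum_eq_single l, map_smul, hy1] at h4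
    · refine (smul_eq_zero.1 h4).resolve_right fun h5 => hχx ?_
      apply conj_injective T (σ l)
      rw [h5, conj_zero]
    · intro j _ hj
      rw [map_smul, hy2 j l (Ne.symm hj), smul_zero]
    · exact fun h => absurd (Finset.mem_univ l) h
  let y' : Fin (b + 1) → U := fun j => ⟨y j, hy j⟩
  have h4 : LinearIndependent ℂ y' := LinearIndependent.of_comp U.subtype hli
  have h5 := h4.fintype_card_le_finrank
  rw [Fintype.card_fin] at h5
  exact h5

end Pool.Agent.U222.DBO.W
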