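import Pool.Agent.U222.DB.Lef
import Pool.Agent.U222.DB.Wid

/-!
# De Rham-Betti classes on products with curves
-/

set_option autoImplicit false

open CategoryTheory AlgebraicGeometry TensorProduct

universe u

namespace Pool.Agent.U222.DBO.I

open Pool.Agent.H914 Pool.Agent.H914.VarClass Pool.Agent.H914.VarClass.Obj Pool.Agent.Y121.AHS
  Pool.Agent.U222.HC.I
open Pool.Agent.U222.HC (GVar conj Sub Has IsCombination InSpan isTrivial_iff)

variable {k : Type u} [Field k] {𝒱 : VarClass k} {ops : CycleOps 𝒱} {T : HodgeTheory ops}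
  {X Y Z : 𝒱.Obj}

lemma curve_types {A : GVar 𝒱} {a : ℕ} (h : IsCyclicCurve T A a) {χ : AddChar A.G ℂ} (hχ : χ ≠ 1)
    {x : HL T.W ℂ A.X} (hx : IsEigenvector T A χ x) :
    x ∈ Submodule.span ℂ {y : HL T.W ℂ A.X | IsType T.pq 1 0 y ∨ IsType T.pq 0 1 y} :=
  h.types χ x (fun h1 => hχ ((isTrivial_iff χ).1 h1)) hx

lemma isSepar_curve {A : GVar 𝒱} {a b : ℕ} (h : IsCyclicCurve T A a)
    (hb : a ^ 2 * b + a < A.order) : IsSepar T A 1 b := by
  classical
  obtain ⟨χ₀, hχ₀, hext⟩ := h.extreme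
  have hne : (show AddChar A.G ℂ from χ₀) ≠ 1 := fun h1 => hχ₀ ((isTrivial_iff χ₀).2 h1)
  have hcard : Nat.card (AddChar A.G ℂ) = A.order := by
    rw [Nat.card_eq_fintype_card, AddChar.card_eq]
    rfl
  haveI : Fact A.order.Prime := ⟨h.prime⟩
  have hN : (show AddChar A.G ℂ from χ₀) ^ A.order = 1 := by
    rw [← hcard]
    exact pow_card_eq_one'
  obtain ⟨S, hS⟩ : ∃ S : AddChar A.G ℂ → Prop, ∀ χ, S χ ↔
      ∃ j : ℕ, 0 < j ∧ j * a < A.order ∧ χ = (show AddChar A.G ℂ from χ₀) ^ j :=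
    ⟨fun χ => _, fun χ => Iff.rfl⟩
  have hlow : ∀ χ : AddChar A.G ℂ, χ ≠ 1 → ∀ x, IsEigenvector T A χ x →
      x ∈ above T A.X (-1) ∧ x ∈ below T A.X (-1) := by
    intro χ hχ x hx
    have h1 := curve_types h hχ hx
    constructor
    · refine (Submodule.span_le (p := above T A.X (-1))).2 ?_ h1
      rintro y (hy | hy)
      · exact Submodule.mem_iSup_of_mem ⟨((1 : ℤ), (0 : ℤ)), by norm_num⟩ hy
      · exact Submodule.mem_iSup_of_mem ⟨((0 : ℤ), (1 : ℤ)), by norm_num⟩ hy
    · refine (Submodule.span_le (p := below T A.X (-1))).2 ?_ h1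
      rintro y (hy | hy)
      · exact Submodule.mem_iSup_of_mem ⟨((1 : ℤ), (0 : ℤ)), by norm_num⟩ hy
      · exact Submodule.mem_iSup_of_mem ⟨((0 : ℤ), (1 : ℤ)), by norm_num⟩ hy
  let A' : Fin (0 + 1) → GVar 𝒱 := fun _ => A
  let m : ∀ i, AddChar (A' i).G ℂ → ℤ := fun _ χ => if S χ then 1 else -1
  have hsys : IsSystem2 T A' m := by
    refine ⟨fun i h1 => ?_, fun i => h.invariants, fun i χ x hχ hx => ?_, fun i χ x hχ hx => ?_⟩
    · obtain ⟨x, hx⟩ := h.nontrivial
      exact hx (by rw [← one_mul x]; exact (congrArg (fun y => y * x) h1).trans (zero_mul x))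
    · show x ∈ above T A.X (if S χ then 1 else -1)
      by_cases h1 : S χ
      · rw [if_pos h1]
        obtain ⟨j, hj, hja, rfl⟩ := (hS χ).1 h1
        exact Submodule.mem_iSup_of_mem ⟨((1 : ℤ), (0 : ℤ)), by norm_num⟩ ((hext j hj hja x).1 hx)
      · rw [if_neg h1]
        exact (hlow χ hχ x hx).1
    · show x ∈ below T A.X (if S χ⁻¹ then 1 else -1)
      by_cases h1 : S χ⁻¹
      · rw [if_pos h1]
        obtain ⟨j, hj, hja, hjχ⟩ := (hS _).1 h1
        have hjN : j ≤ A.order := by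
          have h2 : j ≤ j * a := Nat.le_mul_of_pos_right _ (by have := h.two_le; omega)
          omega
        have h2 : χ = (show AddChar A.G ℂ from χ₀) ^ (A.order - j) := by
          rw [← inv_inv χ, hjχ, inv_eq_iff_mul_eq_one, ← pow_add, Nat.add_sub_cancel' hjN]
          exact hN
        refine Submodule.mem_iSup_of_mem ⟨((0 : ℤ), (1 : ℤ)), by norm_num⟩
          ((hext j hj hja x).2 ?_)
        have h3 : IsEigenvector T A ((show AddChar A.G ℂ from χ₀) ^ (A.order - j)) x := h2 ▸ hx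
        exact h3
      · rw [if_neg h1]
        exact (hlow χ hχ x hx).2
  have hsep : IsSeparated A' m 1 b := by
    refine separated_of_primes A' m 1 b zero_lt_one (fun _ => h.prime)
      (fun i i' hii => absurd (Subsingleton.elim (α := Fin 1) i i') hii) fun i =>
      ⟨a, h.two_le, hb, fun χ hχ => ?_⟩
    change AddChar A.G ℂ at χ
    obtain ⟨u, hu⟩ := (Submonoid.mem_powers_iff _ _).1 (mem_powers_of_prime_card hcard hχ
      (g' := (show AddChar A.G ℂ from χ₀)))
    refine ⟨u, ?_, fun j hj hja => ?_⟩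
    · refine ((Nat.Prime.coprime_iff_not_dvd h.prime).2 fun h1 => ?_).symm
      obtain ⟨e, rfl⟩ := h1
      refine hne ?_
      rw [← hu, pow_mul, ← hcard, pow_card_eq_one', one_pow]
    · have h1 : S (χ ^ (u * j)) := by
        refine (hS _).2 ⟨j, hj, hja, ?_⟩
        rw [pow_mul, hu]
      show (1 : ℤ) ≤ if S (χ ^ (u * j)) then 1 else -1
      rw [if_pos h1]
  exact isSepar_nest T 0 A' m hsys hsep

lemma one_ne (h : ∃ x : T.W.H X, x ≠ 0) : (1 : T.W.H X) ≠ 0 := by
  intro h1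
  obtain ⟨x, hx⟩ := h
  exact hx (by rw [← one_mul x, h1, zero_mul])

/-- Cyclic coverings of large prime degree are wide. -/
theorem wide_of_cyclic {A : GVar 𝒱} {a b : ℕ} (h : IsCyclicCurve T A a)
    (hb : a ^ 2 * b + a < A.order) : IsWide T A.X b :=
  ⟨h.curve, h.nontrivial, fun U hU hdeg hne =>
    W.wide_of_separ T A h.invariants (isSepar_curve h hb) U hU hdeg hne⟩

theorem wide_of_simple {b : ℕ} (h : IsSimpleCurve T X) (hb : b < bettiNumber T X 1) :
    IsWide T X b := by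
  refine ⟨h.curve, h.nontrivial, fun U hU hdeg hne => lt_of_lt_of_le hb ?_⟩
  exact Submodule.finrank_mono (show (grL T.W ℂ X 1 : Submodule ℂ (HL T.W ℂ X)) ≤
    (show Submodule ℂ (HL T.W ℂ X) from U) from fun x hx => h.simple U hU hdeg hne x hx)

lemma prD_em {i : ℕ} {a : T.W.H X} (ha : a ∈ T.W.gr X i) (d : ℤ) :
    prD T X d (emL T.W ℂ a) = if (i : ℤ) = d then emL T.W ℂ a else 0 :=
  prD_of_mem T (grL_em T ha) d

/-- The classes of even degree on a curve are algebraic. -/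
lemma algebraic_of_even (hX : X.dim = 1) {i : ℕ} (hi : i ≠ 1) {a : T.W.H X}
    (ha : a ∈ T.W.gr X i) : IsAlgebraic T a := by
  have hone : IsAlgebraic T (1 : T.W.H X) :=
    Submodule.subset_span ⟨0, X.V.fundCycle, X.V.fundCycle_mem, T.W.cl_fund X⟩
  rcases Nat.lt_or_ge i 3 with h | h
  · obtain rfl | rfl : i = 0 ∨ i = 2 := by omega
    · rw [T.W.gr_zero] at ha
      obtain ⟨q, rfl⟩ := Submodule.mem_span_singleton.1 ha
      exact Submodule.smul_mem _ _ hone
    · obtain ⟨E, hE, hHL, -⟩ := T.polar X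
      obtain ⟨b, hb, rfl⟩ := Pool.Agent.Y121.AH.hl_surj hHL (i := 0) (Nat.zero_le _)
        (show a ∈ T.W.gr X (2 * X.dim - 0) by rwa [hX])
      rw [T.W.gr_zero] at hb
      obtain ⟨q, rfl⟩ := Submodule.mem_span_singleton.1 hb
      rw [hX, Nat.sub_zero, pow_one, mul_smul_comm, mul_one]
      exact Submodule.smul_mem _ _ (Submodule.subset_span ⟨1, E, hE, rfl⟩)
  · rw [T.W.gr_eq_bot X _ (by omega)] at ha
    rw [(Submodule.mem_bot _).1 ha]
    exact Submodule.zero_mem _

lemma algTensor_of_curve (hX : X.dim = 1) {c : T.W.H (X.prod Z)}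
    (hc : op1 T (prD T X 1) (emL T.W ℂ c) = 0) : AlgTensor T c := by
  have h2 : ∀ d : T.W.H (X.prod Z), ∃ d',
      emL T.W ℂ d' + op1 T (prD T X 1) (emL T.W ℂ d) = emL T.W ℂ d ∧ AlgTensor T d' := by
    intro d
    induction d using xp_ind T with
    | h0 => exact ⟨0, by rw [em_zero, map_zero, add_zero], AddSubmonoid.zero_mem _⟩
    | ha x y hx hy =>
      obtain ⟨x', hx, hx'⟩ := hx
      obtain ⟨y', hy, hy'⟩ := hy
      refine ⟨x' + y', ?_, AddSubmonoid.add_mem _ hx' hy'⟩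
      rw [em_add, em_add, map_add, add_add_add_comm, hx, hy]
    | he a b =>
      induction a using gr_ind T with
      | h0 =>
        refine ⟨0, ?_, AddSubmonoid.zero_mem _⟩
        rw [xp, map_zero, zero_mul, em_zero, map_zero, add_zero]
      | ha x y hx hy =>
        obtain ⟨x', hx, hx'⟩ := hx
        obtain ⟨y', hy, hy'⟩ := hy
        refine ⟨x' + y', ?_, AddSubmonoid.add_mem _ hx' hy'⟩
        rw [xp_add_left, em_add, em_add, map_add, add_add_add_comm, hx, hy]
      | hg i a ha =>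
        by_cases hi : i = 1
        · refine ⟨0, ?_, AddSubmonoid.zero_mem _⟩
          rw [em_xp, op1_eL, prD_em ha, if_pos (by rw [hi]; exact Nat.cast_one), em_zero, zero_add]
        · refine ⟨xp T a b, ?_, AddSubmonoid.subset_closure
            ⟨a, b, algebraic_of_even hX hi ha, rfl⟩⟩
          rw [em_xp, op1_eL, prD_em ha, if_neg (by exact_mod_cast hi), map_zero,
            LinearMap.zero_apply, add_zero]
  obtain ⟨d', hd, hd'⟩ := h2 c
  rw [hc, add_zero] at hd
  rwa [← em_injective T hd]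

variable {F : Subfield ℂ} (D : DeRham T F)

/-- **The de Rham-Betti classes on `X × Z`.** -/
theorem split (hW : WuestholzTheorem D) {w : ℕ} (h : IsWide T X (bettiNumber T Z (2 * w - 1)))
    (c : T.W.H (X.prod Z)) (hc : IsDRB D (X.prod Z) w c) :
    InSpan T.W.K (productClasses D X Z w) c :=
  sum_dRB D hc (algTensor_of_curve h.curve (comp_dRB_zero D hW hc (fun _ => le_rfl) h.wide))

/-- **The period conjecture in codimension `w`.** -/
theorem gpc_iff (hW : WuestholzTheorem D) {w : ℕ}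
    (h : IsWide T X (bettiNumber T Z (2 * w - 1))) :
    GPC D (X.prod Z) w ↔ GPC D Z w ∧ ∀ v, v + 1 = w → GPC D Z v := by
  constructor
  · intro h1
    refine ⟨gpc_of_prod D (one_ne h.nontrivial) h1, fun v hv => ?_⟩
    refine gpc_of_prod' D (one_ne h.nontrivial) ?_
    rwa [h.curve, add_comm, hv]
  · rintro ⟨h0, h1⟩ c hc
    exact gpc_of_sums_curve D h.curve h0 h1 (split D hW h c hc)

theorem split' (hW : WuestholzTheorem D) (w : ℕ)
    (h : ∀ i, Odd i → IsWide T X (bettiNumber T Z i))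
    (c : T.W.H (X.prod Z)) (hc : IsDRB D (X.prod Z) w c) :
    InSpan T.W.K (productClasses D X Z w) c := by
  have h1 := h (2 * (w - 1) + 1) ⟨w - 1, rfl⟩
  refine sum_dRB D hc (algTensor_of_curve h1.curve (comp_dRB_zero D hW hc (fun hw => ?_) h1.wide))
  rw [show 2 * w - 1 = 2 * (w - 1) + 1 by omega]

theorem tower_iff (hW : WuestholzTheorem D) (L : List 𝒱.Obj) (Z : 𝒱.Obj) (hL : IsLarge T L Z)
    (r : ℕ) : (∀ j ≤ r, GPC D (tower L Z) j) ↔ ∀ j ≤ r, GPC D Z j := by
  induction L with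
  | nil => exact Iff.rfl
  | cons X L ih =>
    obtain ⟨h1, h2⟩ := hL
    refine Iff.trans ⟨fun h j hj => gpc_of_prod D (one_ne (h1 1 ⟨0, rfl⟩).nontrivial) (h j hj),
      fun h j hj c hc => ?_⟩ (ih h2)
    exact gpc_of_sums D h hj (split' D hW j h1 c hc)

theorem concl (hW : WuestholzTheorem D) (L : List 𝒱.Obj) (Z : 𝒱.Obj) (hL : IsLarge T L Z) :
    Conclusions D (tower L Z) Z := by
  have h1 := tower_iff D hW L Z hL
  have h2 : (∀ j, GPC D (tower L Z) j) ↔ ∀ j, GPC D Z j :=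
    ⟨fun h j => (h1 j).1 (fun i _ => h i) j le_rfl, fun h j => (h1 j).2 (fun i _ => h i) j le_rfl⟩
  exact ⟨h2, h1, fun h => h2.2 (gpc_of_half D h), fun h => h2.2 (gpc_curve D h),
    fun h h' => h2.2 (gpc_threefold D h h')⟩

end Pool.Agent.U222.DBO.I
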