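import Pool.Agent.U222.DB.Sum
import Pool.Agent.U222.HD.Half

/-!
# Hard Lefschetz for de Rham-Betti classes
-/

set_option autoImplicit false

open CategoryTheory AlgebraicGeometry TensorProduct

universe u

namespace Pool.Agent.U222.DBO.I

open Pool.Agent.H914 Pool.Agent.H914.VarClass Pool.Agent.H914.VarClass.Obj Pool.Agent.Y121.AHS
  Pool.Agent.U222.HC.I
open Pool.Agent.U222.HC (GVar conj Sub Has IsCombination InSpan)

section Lin

variable {K : Type*} [Field K] [Algebra K ℂ] {V : Type*} [AddCommGroup V] [Module K V]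

lemma bc_inj (p : Submodule K V) (f : V →ₗ[K] V) (h : ∀ a ∈ p, f a = 0 → a = 0)
    {x : ℂ ⊗[K] V} (hx : x ∈ p.baseChange ℂ) (h0 : f.baseChange ℂ x = 0) : x = 0 := by
  obtain ⟨g, hg⟩ := (f.domRestrict p).exists_leftInverse_of_injective
    (LinearMap.ker_eq_bot'.2 fun a ha => Subtype.ext (h a.1 a.2 ha))
  have h1 : ∀ a ∈ p, (g (f a) : V) = a := fun a ha =>
    congrArg Subtype.val (LinearMap.congr_fun hg ⟨a, ha⟩)
  have h2 : ((p.subtype ∘ₗ g).baseChange ℂ) (f.baseChange ℂ x) = x := by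
    rw [Submodule.baseChange_eq_span] at hx
    clear h0
    induction hx using Submodule.span_induction with
    | mem y hy =>
      obtain ⟨a, ha, rfl⟩ := hy
      show ((p.subtype ∘ₗ g).baseChange ℂ) (f.baseChange ℂ ((1 : ℂ) ⊗ₜ[K] a)) = (1 : ℂ) ⊗ₜ[K] a
      rw [LinearMap.baseChange_tmul, LinearMap.baseChange_tmul]
      congr 1
      exact h1 a ha
    | zero => rw [map_zero, map_zero]
    | add x y _ _ hx hy => rw [map_add, map_add, hx, hy]
    | smul z x _ hx => rw [map_smul, map_smul, hx]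
  rw [← h2, h0, map_zero]

end Lin

variable {k : Type u} [Field k] {𝒱 : VarClass k} {ops : CycleOps 𝒱} (T : HodgeTheory ops)
  {X Y Z : 𝒱.Obj}

/-- The operator of multiplication with a rational class. -/
noncomputable def mr (e : T.W.H X) : HL T.W ℂ X →ₗ[ℂ] HL T.W ℂ X :=
  (LinearMap.mulLeft T.W.K e).baseChange ℂ

lemma ml_em (e : T.W.H X) (x : HL T.W ℂ X) : ml T X (emL T.W ℂ e) x = mr T e x := by
  change ℂ ⊗[T.W.K] T.W.H X at x
  induction x using TensorProduct.induction_on with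
  | zero => exact ((ml T X (emL T.W ℂ e)).map_zero).trans ((mr T e).map_zero).symm
  | tmul z a =>
    have h1 : ml T X (emL T.W ℂ e) (show HL T.W ℂ X from z ⊗ₜ[T.W.K] a) =
        (show HL T.W ℂ X from (1 * z) ⊗ₜ[T.W.K] (e * a)) :=
      Algebra.TensorProduct.tmul_mul_tmul _ _ _ _
    refine h1.trans ?_
    rw [one_mul]
    rfl
  | add a b ha hb =>
    exact ((ml T X (emL T.W ℂ e)).map_add _ _).trans
      ((congrArg₂ (fun x y : HL T.W ℂ X => x + y) ha hb).trans ((mr T e).map_add _ _).symm)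

lemma mr_em (e a : T.W.H X) : mr T e (emL T.W ℂ a) = emL T.W ℂ (e * a) := rfl

lemma grL_eq (i : ℕ) : (grL T.W ℂ X i : Submodule ℂ (HL T.W ℂ X)) =
    Submodule.span ℂ ((fun a => emL T.W ℂ a) '' (T.W.gr X i : Set (T.W.H X))) :=
  Submodule.baseChange_eq_span _ _

lemma mr_deg {e : T.W.H X} {i l : ℕ} (h : ∀ a ∈ T.W.gr X i, e * a ∈ T.W.gr X l)
    {x : HL T.W ℂ X} (hx : x ∈ grL T.W ℂ X i) : mr T e x ∈ grL T.W ℂ X l := by
  rw [grL_eq] at hx
  induction hx using Submodule.span_induction with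
  | mem x hx =>
    obtain ⟨a, ha, rfl⟩ := hx
    exact grL_em T (h a ha)
  | zero => rw [map_zero]; exact Submodule.zero_mem _
  | add x y _ _ hx hy => rw [map_add]; exact Submodule.add_mem _ hx hy
  | smul z x _ hx => rw [map_smul]; exact Submodule.smul_mem _ _ hx

lemma mr_surj {e : T.W.H X} {i l : ℕ} (h : ∀ b ∈ T.W.gr X l, ∃ a ∈ T.W.gr X i, e * a = b)
    {x : HL T.W ℂ X} (hx : x ∈ grL T.W ℂ X l) : ∃ y ∈ grL T.W ℂ X i, mr T e y = x := by
  rw [grL_eq] at hx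
  induction hx using Submodule.span_induction with
  | mem x hx =>
    obtain ⟨b, hb, rfl⟩ := hx
    obtain ⟨a, ha, rfl⟩ := h b hb
    exact ⟨_, grL_em T ha, rfl⟩
  | zero => exact ⟨0, Submodule.zero_mem _, map_zero _⟩
  | add x y _ _ hx hy =>
    obtain ⟨x', hx, rfl⟩ := hx
    obtain ⟨y', hy, rfl⟩ := hy
    exact ⟨x' + y', Submodule.add_mem _ hx hy, map_add _ _ _⟩
  | smul z x _ hx =>
    obtain ⟨x', hx, rfl⟩ := hx
    exact ⟨z • x', Submodule.smul_mem _ _ hx, map_smul _ _ _⟩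

lemma mr_inj {e : T.W.H X} {i : ℕ} (h : ∀ a ∈ T.W.gr X i, e * a = 0 → a = 0)
    {x : HL T.W ℂ X} (hx : x ∈ grL T.W ℂ X i) (h0 : mr T e x = 0) : x = 0 :=
  bc_inj (T.W.gr X i) (LinearMap.mulLeft T.W.K e) h hx h0

variable {T} {F : Subfield ℂ} (D : DeRham T F)

/-- **Hard Lefschetz for de Rham-Betti classes.** -/
lemma lift_dRB {y : Z.Cycles} {m j : ℕ} (hy : Z.IsCyc m y) (hj : 2 * j + m = Z.dim)
    (hinj : ∀ a ∈ T.W.gr Z (2 * j), T.W.cl Z y * a = 0 → a = 0)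
    (hsurj : ∀ b ∈ T.W.gr Z (2 * (m + j)), ∃ a ∈ T.W.gr Z (2 * j), T.W.cl Z y * a = b)
    {x : T.W.H Z} (hx : x ∈ T.W.gr Z (2 * j)) (hc : IsDRB D Z (m + j) (T.W.cl Z y * x)) :
    IsDRB D Z j x := by
  classical
  set M : HL T.W ℂ Z →ₗ[ℂ] HL T.W ℂ Z := twoPiI ^ m • mr T (T.W.cl Z y) with hM
  have hMdR : ∀ u ∈ D.dR Z, M u ∈ D.dR Z := by
    intro u hu
    have h1 := D.mul Z _ (D.cyc Z m y hy) _ hu
    rw [mulL_eq, twL_eq, map_smul, LinearMap.smul_apply, ml_em] at h1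
    exact h1
  have hne : (twoPiI ^ m : ℂ) ≠ 0 := pow_ne_zero _ twoPiI_ne
  have hdeg : ∀ u ∈ grL T.W ℂ Z (2 * j), M u ∈ grL T.W ℂ Z (2 * (m + j)) := by
    intro u hu
    refine Submodule.smul_mem _ _ (mr_deg T (fun a ha => ?_) hu)
    have h1 := T.W.mul_mem (T.W.cl_mem hy) ha
    rwa [← mul_add] at h1
  set S : Set (HL T.W ℂ Z) := {v | v ∈ D.dR Z ∧ ∃ i, i ≠ 2 * (m + j) ∧ v ∈ grL T.W ℂ Z i} ∪
    {v | ∃ u ∈ D.dR Z, u ∈ grL T.W ℂ Z (2 * j) ∧ M u = v} with hS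
  have hspan : ∀ v ∈ D.dR Z, v ∈ Submodule.span F S := by
    intro v hv
    refine mem_of_span D (Submodule.span F S) (fun v hv => ?_) ?_ hv
    · refine (Submodule.span_le (p := sub D Z)).2 ?_ hv
      rintro v (hv | ⟨u, hu, -, rfl⟩)
      · exact hv.1
      · exact hMdR u hu
    · rw [eq_top_iff, ← grL_top T Z]
      refine iSup_le fun i v hv => ?_
      by_cases hi : i = 2 * (m + j)
      · subst hi
        obtain ⟨u, hu, rfl⟩ := mr_surj T hsurj hv
        have h1 : mr T (T.W.cl Z y) u = (twoPiI ^ m)⁻¹ • M u := by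
          rw [hM, LinearMap.smul_apply, smul_smul, inv_mul_cancel₀ hne, one_smul]
        rw [h1]
        refine Submodule.smul_mem _ _ ?_
        have h3 : ∀ u ∈ Submodule.span ℂ {y | y ∈ D.dR Z ∧ y ∈ grL T.W ℂ Z (2 * j)},
            M u ∈ Submodule.span ℂ (Submodule.span F S : Set (HL T.W ℂ Z)) := by
          intro u hu
          induction hu using Submodule.span_induction with
          | mem u hu =>
            exact Submodule.subset_span (Submodule.subset_span (Or.inr ⟨u, hu.1, hu.2, rfl⟩))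
          | zero => rw [map_zero]; exact Submodule.zero_mem _
          | add a b _ _ ha hb => rw [map_add]; exact Submodule.add_mem _ ha hb
          | smul z a _ ha => rw [map_smul]; exact Submodule.smul_mem _ _ ha
        exact h3 u (span_gr D Z hu)
      · exact Submodule.span_mono (fun y hy => Submodule.subset_span (Or.inl ⟨hy.1, i, hi, hy.2⟩))
          (span_gr D Z hv)
  have key : ∀ v ∈ D.dR Z, ∃ u ∈ D.dR Z, u ∈ grL T.W ℂ Z (2 * j) ∧
      prD T Z (2 * (m + j) : ℕ) v = M u := by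
    intro v hv
    have h1 := hspan v hv
    clear hv
    induction h1 using Submodule.span_induction with
    | mem v hv =>
      rcases hv with ⟨-, i, hi, hv⟩ | ⟨u, hu, hu', rfl⟩
      · refine ⟨0, D.zero _, Submodule.zero_mem _, ?_⟩
        rw [map_zero, prD_of_mem T hv, if_neg]
        exact_mod_cast hi
      · exact ⟨u, hu, hu', by rw [prD_of_mem T (hdeg u hu'), if_pos rfl]⟩
    | zero => exact ⟨0, D.zero _, Submodule.zero_mem _, by rw [map_zero, map_zero]⟩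
    | add a b _ _ ha hb =>
      obtain ⟨u, hu, hu', h1⟩ := ha
      obtain ⟨v, hv, hv', h2⟩ := hb
      exact ⟨u + v, D.add _ _ hu _ hv, Submodule.add_mem _ hu' hv', by
        rw [map_add, map_add, h1, h2]⟩
    | smul r a _ ha =>
      obtain ⟨u, hu, hu', h1⟩ := ha
      refine ⟨(r : ℂ) • u, D.smul _ r.1 r.2 _ hu, Submodule.smul_mem _ _ hu', ?_⟩
      have h2 : r • a = (r : ℂ) • a := rfl
      rw [h2, map_smul, map_smul, h1]
  have h1 : twL twoPiI (m + j) (emL T.W ℂ (T.W.cl Z y * x)) =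
      M (twoPiI ^ j • emL T.W ℂ x) := by
    rw [twL_eq, hM, LinearMap.smul_apply, map_smul, smul_smul, mr_em, pow_add]
  have hx' : twoPiI ^ j • emL T.W ℂ x ∈ grL T.W ℂ Z (2 * j) :=
    Submodule.smul_mem _ _ (grL_em T hx)
  have h2 := hc.2
  rw [h1] at h2
  obtain ⟨u, hu, hu', h3⟩ := key _ h2
  rw [prD_of_mem T (hdeg _ hx'), if_pos rfl] at h3
  have h4 : twoPiI ^ j • emL T.W ℂ x - u = 0 := by
    refine mr_inj T hinj (Submodule.sub_mem _ hx' hu') ?_
    have h5 : M (twoPiI ^ j • emL T.W ℂ x - u) = 0 := by rw [map_sub, h3, sub_self]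
    rw [hM, LinearMap.smul_apply] at h5
    exact (smul_eq_zero.1 h5).resolve_left hne
  refine ⟨hx, ?_⟩
  rw [twL_eq, sub_eq_zero.1 h4]
  exact hu

/-! ### The period conjecture in a given codimension -/

lemma gpc_zero : GPC D Z 0 := by
  intro c hc
  have h1 := hc.1
  rw [mul_zero, T.W.gr_zero] at h1
  obtain ⟨q, rfl⟩ := Submodule.mem_span_singleton.1 h1
  obtain ⟨r, rfl⟩ := T.rat q
  refine ⟨r • Z.V.fundCycle, SmVar.IsCyc.smul _ Z.V.fundCycle_mem, ?_⟩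
  rw [T.W.cl_smul, T.W.cl_fund Z]

lemma gpc_of_half (h : ∀ j, 2 * j ≤ Z.dim → GPC D Z j) (w : ℕ) : GPC D Z w := by
  intro c hc
  by_cases h1 : 2 * w ≤ Z.dim
  · exact h w h1 c hc
  by_cases h2 : w ≤ Z.dim
  · obtain ⟨E, hE, hHL, -⟩ := T.polar Z
    have hcyc : ∀ r : ℕ, ∃ y, Z.IsCyc r y ∧ T.W.cl Z y = T.W.cl Z E ^ r := by
      intro r
      induction r with
      | zero => exact ⟨Z.V.fundCycle, Z.V.fundCycle_mem, by rw [pow_zero]; exact T.W.cl_fund Z⟩
      | succ r ih =>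
        obtain ⟨y, hy, hyc⟩ := ih
        exact ⟨ops.mul y E, ops.mul_mem hy hE, by rw [T.W.cl_mul, hyc, pow_succ]⟩
    obtain ⟨y, hy, hyc⟩ := hcyc (Z.dim - 2 * (Z.dim - w))
    have hj : 2 * (Z.dim - w) ≤ Z.dim := by omega
    have hinj : ∀ a ∈ T.W.gr Z (2 * (Z.dim - w)), T.W.cl Z y * a = 0 → a = 0 := by
      intro a ha h0
      rw [hyc] at h0
      exact Pool.Agent.Y121.AH.hl_inj hHL hj ha h0
    have hsurj : ∀ b ∈ T.W.gr Z (2 * (Z.dim - 2 * (Z.dim - w) + (Z.dim - w))),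
        ∃ a ∈ T.W.gr Z (2 * (Z.dim - w)), T.W.cl Z y * a = b := by
      intro b hb
      rw [hyc]
      refine Pool.Agent.Y121.AH.hl_surj hHL hj ?_
      rwa [show 2 * Z.dim - 2 * (Z.dim - w) = 2 * (Z.dim - 2 * (Z.dim - w) + (Z.dim - w)) by omega]
    have hw : Z.dim - 2 * (Z.dim - w) + (Z.dim - w) = w := by omega
    obtain ⟨x, hx, rfl⟩ := hsurj c (by rw [hw]; exact hc.1)
    have hx' : IsDRB D Z (Z.dim - w) x :=
      lift_dRB D hy (by omega) hinj hsurj hx (by rw [hw]; exact hc)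
    obtain ⟨z, hz, rfl⟩ := h (Z.dim - w) hj x hx'
    refine ⟨ops.mul y z, ?_, ?_⟩
    · have h3 := ops.mul_mem hy hz
      rwa [hw] at h3
    · rw [T.W.cl_mul]
  · have h4 := hc.1
    rw [T.W.gr_eq_bot Z _ (by omega)] at h4
    exact ⟨0, SmVar.IsCyc.zero _ _, (map_zero _).trans ((Submodule.mem_bot _).1 h4).symm⟩

lemma gpc_curve (hd : Z.dim ≤ 1) (w : ℕ) : GPC D Z w := by
  refine gpc_of_half D (fun j hj => ?_) w
  obtain rfl : j = 0 := by omega
  exact gpc_zero D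

lemma gpc_threefold (hd : Z.dim ≤ 3) (h : GPC D Z 1) (w : ℕ) : GPC D Z w := by
  refine gpc_of_half D (fun j hj => ?_) w
  obtain rfl | rfl : j = 0 ∨ j = 1 := by omega
  · exact gpc_zero D
  · exact h

lemma gpc_of_sums {n : ℕ} (hZ : ∀ j ≤ n, GPC D Z j) {w : ℕ} (hw : w ≤ n)
    {c : T.W.H (X.prod Z)} (h : InSpan T.W.K (productClasses D X Z w) c) :
    ∃ z, (X.prod Z).IsCyc w z ∧ T.W.cl (X.prod Z) z = c := by
  induction h using Submodule.span_induction with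
  | mem x hx =>
    obtain ⟨j, l, a, b, hjl, ha, hb, rfl⟩ := hx
    obtain ⟨z, hz, rfl⟩ := hZ l (by omega) _ hb
    refine ⟨ops.mul (ops.pull (fst X Z) a) (ops.pull (snd X Z) z), ?_, ?_⟩
    · have h2 := ops.mul_mem (ops.pull_mem (fst X Z) ha) (ops.pull_mem (snd X Z) hz)
      rwa [hjl] at h2
    · rw [T.W.cl_mul, T.W.cl_pull, T.W.cl_pull]
  | zero => exact ⟨0, SmVar.IsCyc.zero _ _, map_zero _⟩
  | add _ _ _ _ h1 h2 =>
    obtain ⟨z1, hz1, rfl⟩ := h1
    obtain ⟨z2, hz2, rfl⟩ := h2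
    exact ⟨z1 + z2, SmVar.IsCyc.add hz1 hz2, map_add _ _ _⟩
  | smul r _ _ h1 =>
    obtain ⟨z, hz, rfl⟩ := h1
    obtain ⟨q, rfl⟩ := T.rat r
    exact ⟨q • z, SmVar.IsCyc.smul _ hz, T.W.cl_smul q z⟩

lemma gpc_of_prod (h1 : (1 : T.W.H X) ≠ 0) {j : ℕ} (h : GPC D (X.prod Z) j) : GPC D Z j := by
  intro c hc
  obtain ⟨y, hy, hydeg⟩ := exists_point T h1
  have h2 : IsDRB D (X.prod Z) j (T.W.map (snd X Z) c) := by
    refine ⟨T.W.map_mem _ hc.1, ?_⟩
    have h3 := D.map (snd X Z) _ hc.2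
    rw [mapL_eq, twL_eq, map_smul, pl_em] at h3
    exact h3
  obtain ⟨z, hz, hcl⟩ := h _ h2
  have h3 : Z.IsCyc j (ops.push (snd X Z) (ops.mul (ops.pull (fst X Z) y) z)) := by
    refine ops.push_mem _ (ops.mul_mem (ops.pull_mem _ hy) hz) ?_
    rw [dim_prod]
    ring
  have h4 : T.W.cl Z (ops.push (snd X Z) (ops.mul (ops.pull (fst X Z) y) z)) =
      T.W.tr X (T.W.cl X y) • c := by
    rw [T.W.cl_push, T.W.cl_mul, T.W.cl_pull, hcl, push_snd]
  have h5 : T.W.tr X (T.W.cl X y) = (X.V.degCycle y : T.W.K) := T.W.tr_cl hy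
  have h6 : X.V.degCycle y ≠ 0 := by
    intro h0
    rw [h5, h0, Rat.cast_zero] at hydeg
    exact hydeg rfl
  refine ⟨(X.V.degCycle y)⁻¹ • ops.push (snd X Z) (ops.mul (ops.pull (fst X Z) y) z),
    SmVar.IsCyc.smul _ h3, ?_⟩
  rw [T.W.cl_smul, h4, h5, smul_smul, ← Rat.cast_mul, inv_mul_cancel₀ h6, Rat.cast_one, one_smul]

/-- Products of classes of cycles and de Rham-Betti classes. -/
lemma isDRB_xp {j l : ℕ} {a : X.Cycles} (ha : X.IsCyc j a) {b : T.W.H Z} (hb : IsDRB D Z l b) :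
    IsDRB D (X.prod Z) (j + l) (T.W.map (fst X Z) (T.W.cl X a) * T.W.map (snd X Z) b) := by
  constructor
  · have h1 := T.W.mul_mem (T.W.map_mem (fst X Z) (T.W.cl_mem ha)) (T.W.map_mem (snd X Z) hb.1)
    rwa [← mul_add] at h1
  · have h1 := D.mul _ _ (D.map (fst X Z) _ (D.cyc X j a ha)) _ (D.map (snd X Z) _ hb.2)
    have h2 : mulL (mapL (fst X Z) (twL twoPiI j (emL T.W ℂ (T.W.cl X a))))
        (mapL (snd X Z) (twL twoPiI l (emL T.W ℂ b))) =
        twL twoPiI (j + l) (emL T.W ℂ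
          (T.W.map (fst X Z) (T.W.cl X a) * T.W.map (snd X Z) b)) := by
      rw [← eL_apply, twL_eq, twL_eq, twL_eq, map_smul, map_smul, LinearMap.smul_apply, smul_smul,
        eL_em, ← pow_add, add_comm l j]
    rw [h2] at h1
    exact h1

/-- The period conjecture for `X × Z` in codimension `w + dim X` implies the one for `Z` in
codimension `w`. -/
lemma gpc_of_prod' (h1 : (1 : T.W.H X) ≠ 0) {j : ℕ} (h : GPC D (X.prod Z) (X.dim + j)) :
    GPC D Z j := by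
  intro c hc
  obtain ⟨y, hy, hydeg⟩ := exists_point T h1
  obtain ⟨z, hz, hcl⟩ := h _ (isDRB_xp D hy hc)
  have h3 : Z.IsCyc j (ops.push (snd X Z) z) := by
    refine ops.push_mem _ hz ?_
    rw [dim_prod]
    ring
  have h4 : T.W.cl Z (ops.push (snd X Z) z) = T.W.tr X (T.W.cl X y) • c := by
    rw [T.W.cl_push, hcl, push_snd]
  have h5 : T.W.tr X (T.W.cl X y) = (X.V.degCycle y : T.W.K) := T.W.tr_cl hy
  have h6 : X.V.degCycle y ≠ 0 := by
    intro h0
    rw [h5, h0, Rat.cast_zero] at hydeg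
    exact hydeg rfl
  refine ⟨(X.V.degCycle y)⁻¹ • ops.push (snd X Z) z, SmVar.IsCyc.smul _ h3, ?_⟩
  rw [T.W.cl_smul, h4, h5, smul_smul, ← Rat.cast_mul, inv_mul_cancel₀ h6, Rat.cast_one, one_smul]

/-- If the classes of codimension `w` are combinations of products, with a curve `X`. -/
lemma gpc_of_sums_curve (hX : X.dim = 1) {w : ℕ} (h0 : GPC D Z w)
    (h1 : ∀ v, v + 1 = w → GPC D Z v) {c : T.W.H (X.prod Z)}
    (h : InSpan T.W.K (productClasses D X Z w) c) :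
    ∃ z, (X.prod Z).IsCyc w z ∧ T.W.cl (X.prod Z) z = c := by
  induction h using Submodule.span_induction with
  | mem x hx =>
    obtain ⟨j, l, a, b, hjl, ha, hb, rfl⟩ := hx
    have key : (∃ z, Z.IsCyc l z ∧ T.W.cl Z z = b) → ∃ z, (X.prod Z).IsCyc w z ∧
        T.W.cl (X.prod Z) z = T.W.map (fst X Z) (T.W.cl X a) * T.W.map (snd X Z) b := by
      rintro ⟨z, hz, rfl⟩
      refine ⟨ops.mul (ops.pull (fst X Z) a) (ops.pull (snd X Z) z), ?_, ?_⟩
      · have h2 := ops.mul_mem (ops.pull_mem (fst X Z) ha) (ops.pull_mem (snd X Z) hz)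
        rwa [hjl] at h2
      · rw [T.W.cl_mul, T.W.cl_pull, T.W.cl_pull]
    rcases Nat.lt_or_ge j 2 with hj | hj
    · obtain rfl | rfl : j = 0 ∨ j = 1 := by omega
      · obtain rfl : l = w := by omega
        exact key (h0 _ hb)
      · exact key (h1 l (by omega) _ hb)
    · have h2 := T.W.cl_mem ha
      rw [T.W.gr_eq_bot X _ (by omega)] at h2
      refine ⟨0, SmVar.IsCyc.zero _ _, ?_⟩
      rw [(Submodule.mem_bot _).1 h2, map_zero, map_zero, zero_mul]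
  | zero => exact ⟨0, SmVar.IsCyc.zero _ _, map_zero _⟩
  | add _ _ _ _ h1 h2 =>
    obtain ⟨z1, hz1, rfl⟩ := h1
    obtain ⟨z2, hz2, rfl⟩ := h2
    exact ⟨z1 + z2, SmVar.IsCyc.add hz1 hz2, map_add _ _ _⟩
  | smul r _ _ h1 =>
    obtain ⟨z, hz, rfl⟩ := h1
    obtain ⟨q, rfl⟩ := T.rat r
    exact ⟨q • z, SmVar.IsCyc.smul _ hz, T.W.cl_smul q z⟩

end Pool.Agent.U222.DBO.I
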