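import Pool.Agent.U222.HC.Defs

/-!
# De Rham-Betti classes on products with curves: definitions

In the intended use `k` is the field of the algebraic numbers in `ℂ`, `𝒱` is the class of all smooth
projective varieties over `k`, `T` is the Hodge theory `X ↦ H(X(ℂ), ℚ)`, and `F = k`.
-/

set_option autoImplicit false

open CategoryTheory AlgebraicGeometry TensorProduct

universe u

namespace Pool.Agent.U222.DBO

open Pool.Agent.H914 Pool.Agent.H914.VarClass Pool.Agent.H914.VarClass.Obj Pool.Agent.Y121.AHS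
  Pool.Agent.U222.HC

variable {k : Type u} [Field k] {𝒱 : VarClass k} {ops : CycleOps 𝒱}

/-- The number `2 π i`. -/
noncomputable def twoPiI : ℂ := 2 * Real.pi * Complex.I

/-- De Rham cohomology: for each variety `X` a subspace `dR X` over the field `F` of the cohomology
with complex coefficients, whose elements of degree `i` span the cohomology of degree `i`, which is
stable under products and pull-backs and contains the classes `(2 π i) ^ j cl(z)` of the algebraic
cycles `z` of codimension `j`, and on which the values of the trace are in `(2 π i) ^ dim X F`. -/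
structure DeRham (T : HodgeTheory ops) (F : Subfield ℂ) where
  /-- the de Rham cohomology -/
  dR : ∀ X : 𝒱.Obj, Set (HL T.W ℂ X)
  zero : ∀ X, 0 ∈ dR X
  add : ∀ X, ∀ a ∈ dR X, ∀ b ∈ dR X, a + b ∈ dR X
  smul : ∀ X, ∀ r ∈ F, ∀ a ∈ dR X, smL r a ∈ dR X
  span : ∀ X i x, IsDeg i x → IsCombination T (X := X) (fun y => y ∈ dR X ∧ IsDeg i y) x
  mul : ∀ X, ∀ a ∈ dR X, ∀ b ∈ dR X, mulL a b ∈ dR X
  map : ∀ {X Y : 𝒱.Obj} (f : X ⟶ Y), ∀ a ∈ dR Y, mapL f a ∈ dR X
  cyc : ∀ X j z, X.IsCyc j z → twL twoPiI j (emL T.W ℂ (T.W.cl X z)) ∈ dR X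
  tr : ∀ X, ∀ a ∈ dR X, ∃ r ∈ F, trL a = twoPiI ^ X.dim * r

variable {T : HodgeTheory ops} {F : Subfield ℂ}

/-- The de Rham-Betti classes of codimension `j`: the classes `c` in `H^(2 j)(X, ℚ)` such that
`(2 π i) ^ j c` lies in the de Rham cohomology. -/
def IsDRB (D : DeRham T F) (X : 𝒱.Obj) (j : ℕ) (c : T.W.H X) : Prop :=
  c ∈ T.W.gr X (2 * j) ∧ twL twoPiI j (emL T.W ℂ c) ∈ D.dR X

/-- The Grothendieck period conjecture `GPC^j` for `X`. -/
def GPC (D : DeRham T F) (X : 𝒱.Obj) (j : ℕ) : Prop :=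
  ∀ c, IsDRB D X j c → ∃ z, X.IsCyc j z ∧ T.W.cl X z = c

/-- The theorem of Wüstholz on `H¹`: a subspace `U` of `H¹(X, ℂ)` that is defined over `ℚ` in Betti
cohomology (stable under the automorphisms of `ℂ`), and is spanned by classes in the de Rham cohomology,
is a Hodge substructure. -/
def WuestholzTheorem (D : DeRham T F) : Prop :=
  ∀ (X : 𝒱.Obj) (U : Sub T X), (∀ x, Has T U x → IsDeg 1 x) →
    (∀ (σ : ℂ ≃+* ℂ) (x), Has T U x → Has T U (conj T σ x)) →
    (∀ x, Has T U x → IsCombination T (fun y => Has T U y ∧ y ∈ D.dR X) x) → IsSubstructure T 1 U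

variable (T) in
/-- The Betti number `b_i(Z)`. -/
noncomputable def bettiNumber (Z : 𝒱.Obj) (i : ℕ) : ℕ := Module.finrank ℂ (grL T.W ℂ Z i)

variable (T) in
/-- The curve `X` is *wide* with respect to `b`: it has nonzero cohomology, and every nonzero Hodge
substructure of `H¹(X)` is of dimension greater than `b`; so the Jacobian variety has no nonzero abelian
subvariety of dimension at most `b / 2`. -/
structure IsWide (X : 𝒱.Obj) (b : ℕ) : Prop where
  curve : X.dim = 1
  nontrivial : ∃ x : T.W.H X, x ≠ 0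
  wide : ∀ U : Sub T X, IsSubstructure T 1 U → (∀ x, Has T U x → IsDeg 1 x) →
    (∃ x, Has T U x ∧ x ≠ 0) → b < Module.finrank ℂ (show Submodule ℂ (HL T.W ℂ X) from U)

variable (T) in
/-- The curve `X` has nonzero cohomology, and `H¹(X)` is a simple Hodge structure (the Jacobian variety
is simple). -/
structure IsSimpleCurve (X : 𝒱.Obj) : Prop where
  curve : X.dim = 1
  nontrivial : ∃ x : T.W.H X, x ≠ 0
  simple : ∀ U : Sub T X, IsSubstructure T 1 U → (∀ x, Has T U x → IsDeg 1 x) →
    (∃ x, Has T U x ∧ x ≠ 0) → ∀ x, IsDeg 1 x → Has T U x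

variable (T) in
/-- The curve `X` with the action of a group of prime order `N` has the Hodge theory of the curve
`y ^ N = f (x)`, where `f` is a product of powers of linear polynomials with exponents prime to `N` and
with the sum `a ≥ 2`:

* the invariant classes in `H(X, ℚ)` are algebraic;
* for a nontrivial character `χ` the eigenvectors in `H(X, ℂ)` are in degree `1`: sums of classes of types
  `(1, 0)` and `(0, 1)`;
* for a nontrivial character `χ` and all `j` with `0 < j < N / a` the eigenvectors with the character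
  `χ ^ j` are of type `(1, 0)`, and those with the character `χ ^ (N - j)` are of type `(0, 1)`. -/
structure IsCyclicCurve (A : GVar 𝒱) (a : ℕ) : Prop where
  curve : A.X.dim = 1
  prime : A.order.Prime
  two_le : 2 ≤ a
  nontrivial : ∃ x : T.W.H A.X, x ≠ 0
  invariants : ∀ x : T.W.H A.X, (∀ g, T.W.map (A.act g) x = x) → IsAlgebraic T x
  types : ∀ (χ : A.Ch) x, ¬ χ.IsTrivial → IsEigenvector T A χ x →
    IsCombination T (fun y => IsType T.pq 1 0 y ∨ IsType T.pq 0 1 y) x
  extreme : ∃ χ : A.Ch, ¬ χ.IsTrivial ∧ ∀ j : ℕ, 0 < j → j * a < A.order → ∀ x,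
    (IsEigenvector T A (χ.pow j) x → IsType T.pq 1 0 x) ∧
      (IsEigenvector T A (χ.pow (A.order - j)) x → IsType T.pq 0 1 x)

/-- The product `X_1 × (X_2 × (⋯ × Z))`. -/
noncomputable def tower : List 𝒱.Obj → 𝒱.Obj → 𝒱.Obj
  | [], Z => Z
  | X :: L, Z => X.prod (tower L Z)

variable (T) in
/-- Each curve `X_i` is wide with respect to all Betti numbers of odd degree of
`X_(i+1) × (⋯ × Z)`. -/
def IsLarge : List 𝒱.Obj → 𝒱.Obj → Prop
  | [], _ => True
  | X :: L, Z => (∀ i, Odd i → IsWide T X (bettiNumber T (tower L Z) i)) ∧ IsLarge L Z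

/-- The classes `a × b` of codimension `w` on `X × Z`, where `a` is the class of an algebraic cycle on `X`
and `b` is a de Rham-Betti class on `Z`. -/
def productClasses (D : DeRham T F) (X Z : 𝒱.Obj) (w : ℕ) : Set (T.W.H (X.prod Z)) :=
  {x | ∃ (j l : ℕ) (a : X.Cycles) (b : T.W.H Z), j + l = w ∧ X.IsCyc j a ∧ IsDRB D Z l b ∧
    T.W.map (fst X Z) (T.W.cl X a) * T.W.map (snd X Z) b = x}

/-- The conclusions for the variety `V = X_1 × (⋯ × Z)`: the period conjecture for `V` is equivalent to
the one for `Z`, also in the codimensions at most `r`, and follows from the one for `Z` in the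
codimensions at most `dim Z / 2`; it is true if `dim Z ≤ 1`, and if `dim Z ≤ 3` and `GPC^1` is true for
`Z`. -/
structure Conclusions (D : DeRham T F) (V Z : 𝒱.Obj) : Prop where
  iff : (∀ j, GPC D V j) ↔ ∀ j, GPC D Z j
  iff_le : ∀ r, (∀ j ≤ r, GPC D V j) ↔ ∀ j ≤ r, GPC D Z j
  half : (∀ j, 2 * j ≤ Z.dim → GPC D Z j) → ∀ j, GPC D V j
  curve : Z.dim ≤ 1 → ∀ j, GPC D V j
  threefold : Z.dim ≤ 3 → GPC D Z 1 → ∀ j, GPC D V j

end Pool.Agent.U222.DBO
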