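import Pool.Agent.U222.HD.Nest
import Pool.Agent.U222.DB.Old
import Pool.Agent.Y133.Half.HodgeSys

/-!
# De Rham structures: linear algebra
-/

set_option autoImplicit false

open CategoryTheory AlgebraicGeometry TensorProduct

universe u

namespace Pool.Agent.U222.DBO.I

open Pool.Agent.H914 Pool.Agent.H914.VarClass Pool.Agent.H914.VarClass.Obj Pool.Agent.Y121.AHS
  Pool.Agent.U222.HC.I
open Pool.Agent.U222.HC (GVar conj Sub Has IsCombination)

section Lin

open Module

variable {F : Subfield ℂ} {V : Type*} [AddCommGroup V] [Module ℂ V] [FiniteDimensional ℂ V]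

/-- A subspace over `F` which spans, and on which a nondegenerate form has values in `F`, contains
all vectors whose products with its elements are in `F`. -/
lemma mem_of_pair (U : Submodule F V) (hD : Submodule.span ℂ (U : Set V) = ⊤)
    (B : V →ₗ[ℂ] V →ₗ[ℂ] ℂ) (hB : ∀ v, (∀ w, B v w = 0) → v = 0)
    (hDB : ∀ v ∈ U, ∀ w ∈ U, B v w ∈ F) {v : V} (hv : ∀ w ∈ U, B v w ∈ F) : v ∈ U := by
  classical
  obtain ⟨s, hs, hspan, hli⟩ := exists_linearIndependent ℂ (U : Set V)
  rw [hD] at hspan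
  have hfin : Finite s := hli.finite
  have : Fintype s := Fintype.ofFinite s
  have hsD : ∀ i : s, (i : V) ∈ U := fun i => hs i.2
  let e : Basis s ℂ V := Basis.mk hli (by rw [Subtype.range_coe, hspan])
  have he : ∀ i, e i = (i : V) := fun i => by rw [Basis.mk_apply]
  let R : Matrix s s F := fun i j => ⟨B (i : V) (j : V), hDB _ (hsD i) _ (hsD j)⟩
  have hdet : R.det ≠ 0 := by
    intro h0
    have h1 : (R.map (algebraMap F ℂ)).det = 0 := by
      rw [← RingHom.mapMatrix_apply, ← RingHom.map_det, h0, map_zero]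
    obtain ⟨x, hx, hx0⟩ := Matrix.exists_vecMul_eq_zero_iff.2 h1
    apply hx
    have h2 : ∑ i, x i • e i = 0 := by
      apply hB
      intro w
      have h3 : ∀ j, B (∑ i, x i • e i) (e j) = 0 := by
        intro j
        have h4 := congrFun hx0 j
        rw [Matrix.vecMul, dotProduct] at h4
        rw [map_sum, LinearMap.sum_apply]
        rw [Pi.zero_apply] at h4
        rw [← h4]
        apply Finset.sum_congr rfl
        intro i _
        rw [map_smul, LinearMap.smul_apply, smul_eq_mul, he, he]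
        rfl
      have h5 : B (∑ i, x i • e i) = 0 := e.ext fun j => by rw [h3, LinearMap.zero_apply]
      rw [h5, LinearMap.zero_apply]
    have h6 := Fintype.linearIndependent_iff.1 e.linearIndependent x h2
    funext i
    exact h6 i
  let t : s → F := fun j => ⟨B v (j : V), hv _ (hsD j)⟩
  let y : s → F := Matrix.vecMul t R⁻¹
  have hy : Matrix.vecMul y R = t := by
    rw [Matrix.vecMul_vecMul, Matrix.nonsing_inv_mul _ (isUnit_iff_ne_zero.2 hdet),
      Matrix.vecMul_one]
  have hv' : v = ∑ i, (y i) • (i : V) := by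
    rw [← sub_eq_zero]
    apply hB
    intro w
    have h3 : ∀ j, B (v - ∑ i, (y i) • (i : V)) (e j) = 0 := by
      intro j
      have h4 := congrArg (fun z : F => (z : ℂ)) (congrFun hy j)
      rw [Matrix.vecMul, dotProduct] at h4
      rw [map_sub, LinearMap.sub_apply, map_sum, LinearMap.sum_apply, he, sub_eq_zero]
      have h5 : ((t j : F) : ℂ) = B v (j : V) := rfl
      rw [← h5, ← h4]
      push_cast
      apply Finset.sum_congr rfl
      intro i _
      have h6 : (y i) • (i : V) = ((y i : F) : ℂ) • (i : V) := rfl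
      rw [h6, map_smul, LinearMap.smul_apply, smul_eq_mul]
    have h5 : B (v - ∑ i, (y i) • (i : V)) = 0 :=
      e.ext fun j => by rw [h3, LinearMap.zero_apply]
    rw [h5, LinearMap.zero_apply]
  rw [hv']
  exact Submodule.sum_mem _ fun i _ => Submodule.smul_mem _ _ (hsD i)

end Lin

variable {k : Type u} [Field k] {𝒱 : VarClass k} {ops : CycleOps 𝒱} (T : HodgeTheory ops)
  {X Y Z : 𝒱.Obj}

instance finHL (X : 𝒱.Obj) : FiniteDimensional ℂ (HL T.W ℂ X) :=
  (inferInstance : FiniteDimensional ℂ (ℂ ⊗[T.W.K] T.W.H X))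

/-- The trace. -/
noncomputable def trc (X : 𝒱.Obj) : HL T.W ℂ X →ₗ[ℂ] ℂ :=
  (TensorProduct.AlgebraTensorModule.rid T.W.K ℂ ℂ).toLinearMap ∘ₗ (T.W.tr X).baseChange ℂ

lemma trL_eq (x : HL T.W ℂ X) : trL x = trc T X x := rfl

/-- The product. -/
noncomputable def ml (X : 𝒱.Obj) : HL T.W ℂ X →ₗ[ℂ] HL T.W ℂ X →ₗ[ℂ] HL T.W ℂ X :=
  LinearMap.mul ℂ (ℂ ⊗[T.W.K] T.W.H X)

lemma mulL_eq (a b : HL T.W ℂ X) : mulL a b = ml T X a b := rfl

lemma trc_tmul (z : ℂ) (a : T.W.H X) :
    trc T X (show HL T.W ℂ X from z ⊗ₜ[T.W.K] a) = z * algebraMap T.W.K ℂ (T.W.tr X a) := by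
  have h : trc T X (show HL T.W ℂ X from z ⊗ₜ[T.W.K] a) =
      TensorProduct.AlgebraTensorModule.rid T.W.K ℂ ℂ ((T.W.tr X).baseChange ℂ (z ⊗ₜ[T.W.K] a)) :=
    rfl
  rw [h, LinearMap.baseChange_tmul, TensorProduct.AlgebraTensorModule.rid_tmul,
    Algebra.smul_def, mul_comm]

/-- The Poincaré pairing is not degenerate. -/
lemma nondeg {v : HL T.W ℂ X} (h : ∀ w, trc T X (ml T X v w) = 0) : v = 0 := by
  classical
  let e := Module.finBasis T.W.K (T.W.H X)
  have h1 : ∀ i, (e.baseChange ℂ).repr v i = 0 := by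
    intro i
    obtain ⟨y, hy⟩ := Pool.Agent.Y133.Half.exists_dual_class T.W (e.coord i)
    have h4 : ∀ z : ℂ ⊗[T.W.K] T.W.H X, trc T X (ml T X z (emL T.W ℂ y)) =
        (e.baseChange ℂ).repr z i := by
      intro z
      induction z using TensorProduct.induction_on with
      | zero =>
        rw [map_zero]
        exact (congrArg (trc T X) (LinearMap.congr_fun ((ml T X).map_zero)
          (emL T.W ℂ y))).trans ((trc T X).map_zero)
      | tmul r c =>
        have h5 : ml T X (show HL T.W ℂ X from r ⊗ₜ[T.W.K] c) (emL T.W ℂ y) =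
            (show HL T.W ℂ X from (r * 1) ⊗ₜ[T.W.K] (c * y)) :=
          Algebra.TensorProduct.tmul_mul_tmul _ _ _ _
        have h6 : (e.baseChange ℂ).repr (r ⊗ₜ[T.W.K] c) i = e.repr c i • r :=
          Module.Basis.baseChange_repr_tmul _ _ _ _ _
        have h7 := trc_tmul T (X := X) (r * 1) (c * y)
        rw [hy, mul_one] at h7
        rw [h6]
        refine (congrArg (trc T X) h5).trans ?_
        rw [mul_one]
        refine h7.trans ?_
        rw [Module.Basis.coord_apply, Algebra.smul_def, mul_comm]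
      | add a b ha hb =>
        rw [map_add, Finsupp.add_apply, ← ha, ← hb]
        exact (congrArg (trc T X) (LinearMap.congr_fun ((ml T X).map_add (show HL T.W ℂ X from a)
          (show HL T.W ℂ X from b)) (emL T.W ℂ y))).trans ((trc T X).map_add _ _)
    rw [← h4]
    exact h _
  have h5 : (e.baseChange ℂ).repr v = 0 := Finsupp.ext h1
  exact (e.baseChange ℂ).repr.map_eq_zero_iff.1 h5

/-! ### Contraction with a linear form on the cohomology of the second factor -/

/-- Contraction with a linear form on the cohomology of the second factor. -/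
noncomputable def ctr2 (θ : HL T.W ℂ Y →ₗ[ℂ] ℂ) : HL T.W ℂ (X.prod Y) →ₗ[ℂ] HL T.W ℂ X :=
  (TensorProduct.rid ℂ (HL T.W ℂ X)).toLinearMap ∘ₗ (TensorProduct.map LinearMap.id θ) ∘ₗ
    (kn T X Y).symm.toLinearMap

lemma ctr2_eL (θ : HL T.W ℂ Y →ₗ[ℂ] ℂ) (a : HL T.W ℂ X) (b : HL T.W ℂ Y) :
    ctr2 T θ (eL T X Y a b) = θ b • a := by
  rw [ctr2, LinearMap.comp_apply, LinearMap.comp_apply, LinearEquiv.coe_coe, LinearEquiv.coe_coe,
    kn_symm, TensorProduct.map_tmul, TensorProduct.rid_tmul, LinearMap.id_apply]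

lemma ctr2_op1 (θ : HL T.W ℂ Y →ₗ[ℂ] ℂ) (f : HL T.W ℂ X →ₗ[ℂ] HL T.W ℂ X)
    (x : HL T.W ℂ (X.prod Y)) : ctr2 T θ (op1 T f x) = f (ctr2 T θ x) := by
  have h : (ctr2 T θ : HL T.W ℂ (X.prod Y) →ₗ[ℂ] HL T.W ℂ X) ∘ₗ op1 T f = f ∘ₗ ctr2 T θ :=
    lin_ext T fun a b => by
      rw [LinearMap.comp_apply, op1_eL, ctr2_eL, LinearMap.comp_apply, ctr2_eL, map_smul]
  exact LinearMap.congr_fun h x

lemma ctr2_op2 (θ : HL T.W ℂ Y →ₗ[ℂ] ℂ) (f : HL T.W ℂ Y →ₗ[ℂ] HL T.W ℂ Y)
    (x : HL T.W ℂ (X.prod Y)) : ctr2 T θ (op2 T f x) = ctr2 T (θ ∘ₗ f) x := by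
  have h : (ctr2 T θ : HL T.W ℂ (X.prod Y) →ₗ[ℂ] HL T.W ℂ X) ∘ₗ op2 T f = ctr2 T (θ ∘ₗ f) :=
    lin_ext T fun a b => by
      rw [LinearMap.comp_apply, op2_eL, ctr2_eL, ctr2_eL, LinearMap.comp_apply]
  exact LinearMap.congr_fun h x

/-- The contractions of a class, as a linear map. -/
noncomputable def cmap (x : HL T.W ℂ (X.prod Y)) : Module.Dual ℂ (HL T.W ℂ Y) →ₗ[ℂ] HL T.W ℂ X where
  toFun θ := ctr2 T θ x
  map_add' θ φ := by
    induction x using kn_ind T with
    | h0 => rw [map_zero, map_zero, map_zero, add_zero]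
    | ha x y hx hy =>
      rw [map_add, map_add, map_add, hx, hy]
      abel
    | he a b => rw [ctr2_eL, ctr2_eL, ctr2_eL, LinearMap.add_apply, add_smul]
  map_smul' z θ := by
    induction x using kn_ind T with
    | h0 => rw [map_zero, map_zero, smul_zero]
    | ha x y hx hy => rw [map_add, map_add, smul_add, hx, hy]
    | he a b => rw [ctr2_eL, ctr2_eL, LinearMap.smul_apply, smul_assoc, RingHom.id_apply]

lemma cmap_apply (x : HL T.W ℂ (X.prod Y)) (θ : Module.Dual ℂ (HL T.W ℂ Y)) :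
    cmap T x θ = ctr2 T θ x := rfl

/-- A class is zero if all its contractions are zero. -/
lemma eq_zero_of_ctr2 {x : HL T.W ℂ (X.prod Y)} (h : ∀ θ, ctr2 T θ x = 0) : x = 0 := by
  let b := Module.finBasis ℂ (HL T.W ℂ Y)
  have h1 : x = ∑ i, eL T X Y (ctr2 T (b.coord i) x) (b i) := by
    have h2 : (LinearMap.id : HL T.W ℂ (X.prod Y) →ₗ[ℂ] HL T.W ℂ (X.prod Y)) =
        ∑ i, ((eL T X Y).flip (b i)) ∘ₗ ctr2 T (b.coord i) := by
      refine lin_ext T fun a c => ?_
      rw [LinearMap.id_apply, LinearMap.sum_apply]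
      have h3 : ∀ i, (((eL T X Y).flip (b i)) ∘ₗ ctr2 T (b.coord i)) (eL T X Y a c) =
          eL T X Y a (b.coord i c • b i) := fun i => by
        rw [LinearMap.comp_apply, ctr2_eL, LinearMap.flip_apply, map_smul, LinearMap.smul_apply,
          map_smul]
      rw [Finset.sum_congr rfl fun i _ => h3 i, ← map_sum]
      congr 1
      exact (b.sum_repr c).symm
    have h4 := LinearMap.congr_fun h2 x
    rw [LinearMap.id_apply, LinearMap.sum_apply] at h4
    exact h4
  rw [h1]
  refine Finset.sum_eq_zero fun i _ => ?_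
  rw [h, map_zero, LinearMap.zero_apply]

lemma conj_ctr2 (σ : ℂ ≃+* ℂ) (θ : HL T.W ℂ Y →ₗ[ℂ] ℂ) (x : HL T.W ℂ (X.prod Y)) :
    conj T σ (ctr2 T θ x) = ctr2 T (cf T σ θ) (conj T σ x) := by
  induction x using kn_ind T with
  | h0 => rw [map_zero, conj_zero, conj_zero, map_zero]
  | ha x y hx hy => rw [map_add, conj_add, conj_add, map_add, hx, hy]
  | he a b => rw [ctr2_eL, conj_smul, conj_eL, ctr2_eL, cf_apply, conj_symm]

/-! ### De Rham cohomology -/

variable {T} {F : Subfield ℂ} (D : DeRham T F)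

/-- The de Rham cohomology as a subspace. -/
def sub (X : 𝒱.Obj) : Submodule F (HL T.W ℂ X) where
  carrier := D.dR X
  add_mem' ha hb := D.add X _ ha _ hb
  zero_mem' := D.zero X
  smul_mem' r _ ha := D.smul X r.1 r.2 _ ha

lemma mem_sub {x : HL T.W ℂ X} : x ∈ sub D X ↔ x ∈ D.dR X := Iff.rfl

lemma twoPiI_ne : twoPiI ≠ 0 := Complex.two_pi_I_ne_zero

/-- The normalized pairing. -/
noncomputable def pair (T : HodgeTheory ops) (X : 𝒱.Obj) : HL T.W ℂ X →ₗ[ℂ] HL T.W ℂ X →ₗ[ℂ] ℂ :=
  (twoPiI ^ X.dim)⁻¹ • (ml T X).compr₂ (trc T X)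

lemma pair_apply (v w : HL T.W ℂ X) :
    pair T X v w = (twoPiI ^ X.dim)⁻¹ * trc T X (ml T X v w) := rfl

lemma pair_mem {v w : HL T.W ℂ X} (hv : v ∈ D.dR X) (hw : w ∈ D.dR X) : pair T X v w ∈ F := by
  obtain ⟨r, hr, h⟩ := D.tr X _ (D.mul X _ hv _ hw)
  rw [trL_eq, mulL_eq] at h
  rw [pair_apply, h, ← mul_assoc, inv_mul_cancel₀ (pow_ne_zero _ twoPiI_ne), one_mul]
  exact hr

lemma pair_nondeg {v : HL T.W ℂ X} (h : ∀ w, pair T X v w = 0) : v = 0 := by
  refine nondeg T fun w => ?_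
  have h1 := h w
  rw [pair_apply] at h1
  exact (mul_eq_zero.1 h1).resolve_left (inv_ne_zero (pow_ne_zero _ twoPiI_ne))

/-- A subspace of the de Rham cohomology that spans the cohomology is the whole de Rham
cohomology. -/
lemma mem_of_span (U : Submodule F (HL T.W ℂ X)) (hU : ∀ x ∈ U, x ∈ D.dR X)
    (hs : Submodule.span ℂ (U : Set (HL T.W ℂ X)) = ⊤) {v : HL T.W ℂ X} (hv : v ∈ D.dR X) :
    v ∈ U :=
  mem_of_pair U hs (pair T X) (fun _ h => pair_nondeg h)
    (fun _ hx _ hy => pair_mem D (hU _ hx) (hU _ hy)) fun _ hy => pair_mem D hv (hU _ hy)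

lemma span_gr (X : 𝒱.Obj) {i : ℕ} {x : HL T.W ℂ X} (hx : x ∈ grL T.W ℂ X i) :
    x ∈ Submodule.span ℂ {y | y ∈ D.dR X ∧ y ∈ grL T.W ℂ X i} := D.span X i x hx

lemma span_dR (X : 𝒱.Obj) : Submodule.span ℂ (D.dR X) = ⊤ := by
  rw [eq_top_iff, ← grL_top T X]
  refine iSup_le fun i x hx => ?_
  exact Submodule.span_mono (fun y hy => hy.1) (span_gr D X hx)

lemma mem_span (x : HL T.W ℂ X) : x ∈ Submodule.span ℂ (D.dR X) := by
  rw [span_dR D X]
  exact Submodule.mem_top

/-- The de Rham cohomology of a product is spanned by external products. -/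
lemma dR_ind {P : HL T.W ℂ (X.prod Y) → Prop} (h0 : P 0) (ha : ∀ x y, P x → P y → P (x + y))
    (hs : ∀ r ∈ F, ∀ x, P x → P (r • x))
    (he : ∀ a ∈ D.dR X, ∀ b ∈ D.dR Y, P (eL T X Y a b)) {x : HL T.W ℂ (X.prod Y)}
    (hx : x ∈ D.dR (X.prod Y)) : P x := by
  set S : Set (HL T.W ℂ (X.prod Y)) := {x | ∃ a ∈ D.dR X, ∃ b ∈ D.dR Y, eL T X Y a b = x} with hS
  have h1 : x ∈ Submodule.span F S := by
    refine mem_of_span D (Submodule.span F S) (fun y hy => ?_) ?_ hx
    · induction hy using Submodule.span_induction with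
      | mem y hy =>
        obtain ⟨a, ha, b, hb, rfl⟩ := hy
        exact D.mul _ _ (D.map _ _ ha) _ (D.map _ _ hb)
      | zero => exact D.zero _
      | add a b _ _ ha hb => exact D.add _ _ ha _ hb
      | smul r a _ ha => exact D.smul _ r.1 r.2 _ ha
    · rw [eq_top_iff]
      rintro y -
      induction y using kn_ind T with
      | h0 => exact Submodule.zero_mem _
      | ha x y hx hy => exact Submodule.add_mem _ hx hy
      | he a b =>
        have h2 : a ∈ Submodule.span ℂ (D.dR X) := mem_span D a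
        have h3 : b ∈ Submodule.span ℂ (D.dR Y) := mem_span D b
        induction h2 using Submodule.span_induction with
        | mem a ha =>
          induction h3 using Submodule.span_induction with
          | mem b hb => exact Submodule.subset_span (Submodule.subset_span ⟨a, ha, b, hb, rfl⟩)
          | zero => rw [map_zero]; exact Submodule.zero_mem _
          | add x y _ _ hx hy => rw [map_add]; exact Submodule.add_mem _ hx hy
          | smul z x _ hx => rw [map_smul]; exact Submodule.smul_mem _ _ hx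
        | zero => rw [map_zero, LinearMap.zero_apply]; exact Submodule.zero_mem _
        | add x y _ _ hx hy => rw [map_add, LinearMap.add_apply]; exact Submodule.add_mem _ hx hy
        | smul z x _ hx => rw [map_smul, LinearMap.smul_apply]; exact Submodule.smul_mem _ _ hx
  clear hx
  induction h1 using Submodule.span_induction with
  | mem y hy =>
    obtain ⟨a, ha, b, hb, rfl⟩ := hy
    exact he a ha b hb
  | zero => exact h0
  | add a b _ _ hx hy => exact ha _ _ hx hy
  | smul r a _ h => exact hs r.1 r.2 _ h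

/-- The coordinates of de Rham classes in a basis of de Rham classes are in `F`. -/
lemma coord_mem {ι : Type*} [Fintype ι] (e : Module.Basis ι ℂ (HL T.W ℂ X))
    (he : ∀ i, e i ∈ D.dR X) {x : HL T.W ℂ X} (hx : x ∈ D.dR X) (i : ι) : e.repr x i ∈ F := by
  classical
  have h1 : x ∈ Submodule.span F (Set.range e) := by
    refine mem_of_span D _ (fun y hy => ?_) ?_ hx
    · refine (Submodule.span_le (p := sub D X)).2 ?_ hy
      rintro _ ⟨i, rfl⟩
      exact he i
    · rw [eq_top_iff, ← e.span_eq]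
      exact Submodule.span_mono Submodule.subset_span
  clear hx
  induction h1 using Submodule.span_induction with
  | mem y hy =>
    obtain ⟨j, rfl⟩ := hy
    rw [Module.Basis.repr_self, Finsupp.single_apply]
    split_ifs
    · exact F.one_mem
    · exact F.zero_mem
  | zero => rw [map_zero]; exact F.zero_mem
  | add a b _ _ ha hb => rw [map_add]; exact F.add_mem ha hb
  | smul r a _ ha =>
    have h2 : r • a = (r : ℂ) • a := rfl
    rw [h2, map_smul]
    exact F.mul_mem r.2 ha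

/-- A basis of the cohomology whose coordinates of de Rham classes are in `F`. -/
lemma exists_coord (X : 𝒱.Obj) : ∃ (ι : Type) (_ : Fintype ι) (b : Module.Basis ι ℂ (HL T.W ℂ X)),
    ∀ i, ∀ x ∈ D.dR X, b.coord i x ∈ F := by
  classical
  obtain ⟨s, hs, hspan, hli⟩ := exists_linearIndependent ℂ (D.dR X)
  rw [span_dR D X] at hspan
  have hfin : Finite s := hli.finite
  have : Fintype s := Fintype.ofFinite s
  let e : Module.Basis s ℂ (HL T.W ℂ X) :=
    Module.Basis.mk hli (by rw [Subtype.range_coe, hspan])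
  have he : ∀ i, e i = (i : HL T.W ℂ X) := fun i => by rw [Module.Basis.mk_apply]
  obtain ⟨r, ⟨f⟩⟩ := Finite.exists_equiv_fin s
  refine ⟨Fin r, inferInstance, e.reindex f, fun i x hx => ?_⟩
  rw [Module.Basis.coord_apply, Module.Basis.repr_reindex_apply]
  exact coord_mem D e (fun i => by rw [he]; exact hs i.2) hx _

/-- Contractions with linear forms that are defined over `F` preserve de Rham classes. -/
lemma ctr2_dR {θ : HL T.W ℂ Y →ₗ[ℂ] ℂ} (hθ : ∀ y ∈ D.dR Y, θ y ∈ F) {x : HL T.W ℂ (X.prod Y)}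
    (hx : x ∈ D.dR (X.prod Y)) : ctr2 T θ x ∈ D.dR X := by
  refine dR_ind D (P := fun x => ctr2 T θ x ∈ D.dR X) ?_ ?_ ?_ ?_ hx
  · rw [map_zero]; exact D.zero _
  · intro x y hx hy
    rw [map_add]; exact D.add _ _ hx _ hy
  · intro r hr x hx
    rw [map_smul]; exact D.smul _ r hr _ hx
  · intro a ha b hb
    rw [ctr2_eL]; exact D.smul _ _ (hθ b hb) _ ha

lemma ctr_dR {θ : HL T.W ℂ X →ₗ[ℂ] ℂ} (hθ : ∀ y ∈ D.dR X, θ y ∈ F) {x : HL T.W ℂ (X.prod Y)}
    (hx : x ∈ D.dR (X.prod Y)) : ctr T θ x ∈ D.dR Y := by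
  refine dR_ind D (P := fun x => ctr T θ x ∈ D.dR Y) ?_ ?_ ?_ ?_ hx
  · rw [map_zero]; exact D.zero _
  · intro x y hx hy
    rw [map_add]; exact D.add _ _ hx _ hy
  · intro r hr x hx
    rw [map_smul]; exact D.smul _ r hr _ hx
  · intro a ha b hb
    rw [ctr_eL]; exact D.smul _ _ (hθ a ha) _ hb

end Pool.Agent.U222.DBO.I
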