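import Pool.Agent.U222.DB.Fin
import Pool.Agent.U222.DB.Defs

/-!
# De Rham-Betti classes on products of curves with arbitrary varieties: the theorem
-/

set_option autoImplicit false

open CategoryTheory AlgebraicGeometry TensorProduct

universe u

namespace Pool.Agent.U222.DB

open Pool.Agent.H914 Pool.Agent.H914.VarClass Pool.Agent.H914.VarClass.Obj Pool.Agent.Y121.AHS
open Pool.Agent.U222.HC (GVar Sub Has InSpan)
open Pool.Agent.U222.HC.I (em_zero em_injective grL_top smL_eq)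

variable {k : Type u} [Field k] {𝒱 : VarClass k} {ops : CycleOps 𝒱} {T : HodgeTheory ops}
  {X Y Z : 𝒱.Obj} {F : Subfield ℂ}

lemma smL_one (x : HL T.W ℂ X) : smL (1 : ℂ) x = x := one_smul ℂ x

lemma smL_zero (x : HL T.W ℂ X) : smL (0 : ℂ) x = 0 := zero_smul ℂ x

lemma dR_zero (D : DeRham T F) (X : 𝒱.Obj) : D.dR X 0 := by
  have h := D.cyc X 0 0 (SmVar.IsCyc.zero _ _)
  have h1 : twL twoPiI 0 (emL T.W ℂ (T.W.cl X 0)) = 0 := by
    rw [map_zero, em_zero]
    exact smul_zero _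
  rwa [h1] at h

/-- The internal form. -/
def DeRham.int (D : DeRham T F) : DBO.DeRham T F where
  dR X := {a | D.dR X a}
  zero X := dR_zero D X
  add X a ha b hb := by
    have h := D.lin X 1 F.one_mem 1 F.one_mem a b ha hb
    rwa [smL_one, smL_one] at h
  smul X r hr a ha := by
    have h := D.lin X r hr 0 F.zero_mem a a ha ha
    rwa [smL_zero, add_zero] at h
  span X i x hx := D.span X i x hx
  mul X a ha b hb := D.mul X a b ha hb
  map f a ha := D.map f a ha
  cyc X j z hz := D.cyc X j z hz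
  tr X a ha := D.tr X a ha

lemma isDRB_iff (D : DeRham T F) {j : ℕ} {c : T.W.H X} :
    IsDRB D X j c ↔ DBO.IsDRB D.int X j c :=
  ⟨fun h => ⟨DBO.I.gr_of_em T h.1, h.2⟩, fun h => ⟨DBO.I.grL_em T h.1, h.2⟩⟩

lemma gpc_int (D : DeRham T F) {j : ℕ} : GPC D X j ↔ DBO.GPC D.int X j :=
  ⟨fun h c hc => h c ((isDRB_iff D).2 hc), fun h c hc => h c ((isDRB_iff D).1 hc)⟩

lemma isSub_of_hodge {U : Sub T X} (h : IsHodgeSub T (X := X) (Has T U)) :
    HC.IsSubstructure T 1 U := by
  refine ⟨fun σ _ x hx => h.conj σ x hx, fun σ x hx => ?_⟩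
  have h1 := h.types _ (h.conj σ x hx)
  refine Submodule.span_mono ?_ h1
  rintro y ⟨hy, hpq⟩
  exact ⟨hpq, conj T σ.symm y, h.conj _ y hy, HC.I.conj_symm' T σ y⟩

lemma conj_one (x : HL T.W ℂ X) : HC.conj T (RingEquiv.refl ℂ) x = x := by
  change ℂ ⊗[T.W.K] T.W.H X at x
  induction x using TensorProduct.induction_on with
  | zero => exact HC.I.conj_zero T _
  | tmul z a => rfl
  | add x y hx hy =>
    exact (HC.I.conj_add T (RingEquiv.refl ℂ) x y).trans
      (congrArg₂ (fun x y : HL T.W ℂ X => x + y) hx hy)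

lemma span_has (U : Submodule ℂ (HL T.W ℂ X)) : Submodule.span ℂ {x | Has T (X := X) U x} = U :=
  Submodule.span_eq U

lemma hodge_of_isSub {U : Sub T X} (h : HC.IsSubstructure T 1 U)
    (hdeg : ∀ x, Has T U x → IsDeg 1 x) : IsHodgeSub T (X := X) (Has T U) := by
  refine ⟨⟨fun x hx => ?_, hdeg, fun σ x hx => h.rational σ (fun z hz => ?_) x hx⟩,
    fun x hx => ?_⟩
  · have h1 : x ∈ Submodule.span ℂ {x | Has T (X := X) U x} := hx
    rw [span_has] at h1
    exact h1
  · rw [pow_one] at hz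
    rw [hz, map_one]
  · have h1 := h.hodge (RingEquiv.refl ℂ) x hx
    rw [conj_one] at h1
    refine Submodule.span_mono ?_ h1
    rintro y ⟨hpq, x', hx', rfl⟩
    refine ⟨?_, hpq⟩
    rw [conj_one]
    exact hx'

lemma wuestholz_int {D : DeRham T F} (h : WuestholzTheorem D) : DBO.WuestholzTheorem D.int := by
  intro X U hdeg hconj hspan
  refine isSub_of_hodge (h X (Has T U) ⟨fun x hx => ?_, hdeg, hconj⟩ hspan)
  have h1 : x ∈ Submodule.span ℂ {x | Has T (X := X) U x} := hx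
  rw [span_has] at h1
  exact h1

lemma dimension_has (U : Submodule ℂ (HL T.W ℂ X)) :
    dimension T (Has T (X := X) U) = Module.finrank ℂ U := by
  rw [dimension, span_has]

lemma betti_eq (Z : 𝒱.Obj) (i : ℕ) : betti T Z i = DBO.bettiNumber T Z i :=
  dimension_has (grL T.W ℂ Z i)

lemma nontrivial_of_betti (h : betti T X 0 ≠ 0) : ∃ x : T.W.H X, x ≠ 0 := by
  by_contra hno
  push Not at hno
  apply h
  rw [betti_eq, DBO.bettiNumber]
  have h1 : (grL T.W ℂ X 0 : Submodule ℂ (HL T.W ℂ X)) = ⊥ := by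
    rw [eq_bot_iff, DBO.I.grL_eq, Submodule.span_le]
    rintro _ ⟨a, -, rfl⟩
    show emL T.W ℂ a ∈ (⊥ : Submodule ℂ (HL T.W ℂ X))
    rw [hno a, em_zero]
    exact Submodule.zero_mem _
  rw [h1]
  exact finrank_bot ℂ _

lemma wide_int {b : ℕ} (h : IsWide T X b) : DBO.IsWide T X b := by
  refine ⟨h.curve, nontrivial_of_betti h.nonzero, fun U hU hdeg hne => ?_⟩
  have h1 := h.wide (Has T U) (hodge_of_isSub hU hdeg)
  have h2 : dimension T (Has T U) =
      Module.finrank ℂ (show Submodule ℂ (HL T.W ℂ X) from U) := dimension_has _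
  rw [h2] at h1
  refine h1.resolve_left fun h3 => ?_
  obtain ⟨x, hx, hx0⟩ := hne
  have h4 := Submodule.finrank_eq_zero.1 h3
  have h5 : x ∈ (show Submodule ℂ (HL T.W ℂ X) from U) := hx
  rw [h4] at h5
  exact hx0 ((Submodule.mem_bot ℂ).1 h5)

lemma large_int : ∀ (L : List 𝒱.Obj) (Z : 𝒱.Obj), IsLarge T L Z → DBO.IsLarge T L Z ∧
    tower L Z = DBO.tower L Z
  | [], _, _ => ⟨trivial, rfl⟩
  | X :: L, Z, h => by
    obtain ⟨h1, h2⟩ := h
    obtain ⟨h3, h4⟩ := large_int L Z h2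
    refine ⟨⟨fun i hi => ?_, h3⟩, ?_⟩
    · have h5 := wide_int (h1 i hi)
      rw [betti_eq, h4] at h5
      exact h5
    · show X.prod (tower L Z) = X.prod (DBO.tower L Z)
      rw [h4]

theorem concl {D : DeRham T F} (hW : WuestholzTheorem D) (L : List 𝒱.Obj) (Z : 𝒱.Obj)
    (hL : IsLarge T L Z) : Conclusions D (tower L Z) Z := by
  obtain ⟨h1, h2⟩ := large_int L Z hL
  have h3 := DBO.I.concl D.int (wuestholz_int hW) L Z h1
  rw [← h2] at h3
  constructor
  · simp only [gpc_int]; exact h3.iff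
  · simp only [gpc_int]; exact h3.iff_le
  · simp only [gpc_int]; exact h3.half
  · simp only [gpc_int]; exact h3.curve
  · simp only [gpc_int]; exact h3.threefold

theorem split {D : DeRham T F} (hW : WuestholzTheorem D) {w : ℕ}
    (h : IsWide T X (betti T Z (2 * w - 1))) (c : T.W.H (X.prod Z))
    (hc : IsDRB D (X.prod Z) w c) : InSpan T.W.K {x | IsProduct D X Z w x} c := by
  rw [betti_eq] at h
  have h1 := DBO.I.split D.int (wuestholz_int hW) (wide_int h) c ((isDRB_iff D).1 hc)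
  refine Submodule.span_mono ?_ h1
  rintro x ⟨j, l, a, b, hjl, ha, hb, rfl⟩
  exact ⟨j, l, a, b, hjl, ha, (isDRB_iff D).2 hb, (HC.I.eL_em T _ _).symm⟩

theorem gpc_iff {D : DeRham T F} (hW : WuestholzTheorem D) {w : ℕ}
    (h : IsWide T X (betti T Z (2 * w - 1))) :
    GPC D (X.prod Z) w ↔ GPC D Z w ∧ ∀ v, v + 1 = w → GPC D Z v := by
  rw [betti_eq] at h
  simp only [gpc_int]
  exact DBO.I.gpc_iff D.int (wuestholz_int hW) (wide_int h)

end Pool.Agent.U222.DB
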