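import Pool.Agent.U222.DB.Van

/-!
# Invariant de Rham-Betti classes are sums of products
-/

set_option autoImplicit false

open CategoryTheory AlgebraicGeometry TensorProduct

universe u

namespace Pool.Agent.U222.DBO.I

open Pool.Agent.H914 Pool.Agent.H914.VarClass Pool.Agent.H914.VarClass.Obj Pool.Agent.Y121.AHS
  Pool.Agent.U222.HC.I
open Pool.Agent.U222.HC (GVar conj Sub Has IsCombination InSpan)

variable {k : Type u} [Field k] {𝒱 : VarClass k} {ops : CycleOps 𝒱} (T : HodgeTheory ops)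
  {X Y Z : 𝒱.Obj}

lemma mem_grL_of_pr {i : ℕ} {x : HL T.W ℂ X}
    (h : ∀ r : ℤ × ℤ, r.1 + r.2 ≠ i → pr T X r x = 0) : x ∈ grL T.W ℂ X i := by
  obtain ⟨S, -, hx⟩ := pr_sum T x
  rw [hx]
  refine Submodule.sum_mem _ fun r _ => ?_
  by_cases hr : r.1 + r.2 = i
  · rw [T.span X i]
    exact Submodule.mem_iSup_of_mem ⟨r, hr⟩ (pr_mem T r x)
  · rw [h r hr]
    exact Submodule.zero_mem _

lemma pr_of_grL {i : ℕ} {x : HL T.W ℂ X} (hx : x ∈ grL T.W ℂ X i) {r : ℤ × ℤ}
    (hr : r.1 + r.2 ≠ i) : pr T X r x = 0 := by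
  rw [T.span X i] at hx
  induction hx using Submodule.iSup_induction' with
  | mem s x hx =>
    rw [pr_of_mem T r hx, if_neg]
    intro h
    exact hr (h ▸ s.2)
  | zero => rw [map_zero]
  | add x y _ _ hx hy => rw [map_add, hx, hy, add_zero]

lemma gr_of_em {i : ℕ} {b : T.W.H X} (h : emL T.W ℂ b ∈ grL T.W ℂ X i) : b ∈ T.W.gr X i :=
  mem_of_em T h

variable {T} {F : Subfield ℂ} (D : DeRham T F)

/-- Linear forms over `F` which are dual to independent de Rham classes. -/
lemma exists_dual {r : ℕ} {e : Fin r → HL T.W ℂ X} (he : LinearIndependent ℂ e)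
    (hD : ∀ t, e t ∈ D.dR X) (t : Fin r) : ∃ θ : HL T.W ℂ X →ₗ[ℂ] ℂ,
      (∀ y ∈ D.dR X, θ y ∈ F) ∧ ∀ s, θ (e s) = if s = t then 1 else 0 := by
  classical
  have hs : LinearIndepOn ℂ id (Set.range e) := he.linearIndepOn_id
  have hsub : Set.range e ⊆ D.dR X := by
    rintro _ ⟨t, rfl⟩
    exact hD t
  obtain ⟨b, hb1, hb2, hb3, hb4⟩ := exists_linearIndepOn_id_extension hs hsub
  have hli : LinearIndependent ℂ ((↑) : b → HL T.W ℂ X) := hb4
  have hfin : Finite b := hli.finite
  have : Fintype b := Fintype.ofFinite b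
  let B : Module.Basis b ℂ (HL T.W ℂ X) := Module.Basis.mk hli (by
    rw [Subtype.range_coe, ← span_dR D X]
    exact Submodule.span_le.2 hb3)
  have hB : ∀ i, B i = (i : HL T.W ℂ X) := fun i => by rw [Module.Basis.mk_apply]
  have hmem : ∀ s, e s ∈ b := fun s => hb2 (Set.mem_range_self s)
  refine ⟨B.coord ⟨e t, hmem t⟩, fun y hy => ?_, fun s => ?_⟩
  · rw [Module.Basis.coord_apply]
    exact coord_mem D B (fun i => by rw [hB]; exact hb1 i.2) hy _
  · have h1 : e s = B ⟨e s, hmem s⟩ := (hB ⟨e s, hmem s⟩).symm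
    rw [Module.Basis.coord_apply]
    conv_lhs => rw [h1]
    rw [Module.Basis.repr_self, Finsupp.single_apply]
    by_cases h2 : s = t
    · subst h2
      rw [if_pos rfl, if_pos rfl]
    · rw [if_neg h2, if_neg]
      intro h3
      exact h2 (he.injective (Subtype.mk.inj h3))

/-- **De Rham-Betti classes that are sums of products with algebraic first factor.** -/
theorem sum_dRB {w : ℕ} {c : T.W.H (X.prod Z)} (hc : IsDRB D (X.prod Z) w c)
    (h : AlgTensor T c) : InSpan T.W.K (productClasses D X Z w) c := by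
  classical
  obtain ⟨r, j, a, ha, hli, hspan⟩ := exists_family T X
  have h1 : ∃ b : Fin r → T.W.H Z, c = ∑ t, xp T (T.W.cl X (a t)) (b t) := by
    clear hc
    induction h using AddSubmonoid.closure_induction with
    | mem x hx =>
      obtain ⟨y, b, hy, rfl⟩ := hx
      obtain ⟨ρ, hρ⟩ := (Submodule.mem_span_range_iff_exists_fun T.W.K).1 (hspan y hy)
      refine ⟨fun t => ρ t • b, ?_⟩
      rw [← hρ]
      have h2 : ∀ s : Finset (Fin r), xp T (∑ t ∈ s, ρ t • T.W.cl X (a t)) b =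
          ∑ t ∈ s, xp T (T.W.cl X (a t)) (ρ t • b) := by
        intro s
        induction s using Finset.induction_on with
        | empty => rw [Finset.sum_empty, Finset.sum_empty, xp, map_zero, zero_mul]
        | insert t s ht ih => rw [Finset.sum_insert ht, Finset.sum_insert ht, xp_add_left, ih, xp_smul]
      exact h2 Finset.univ
    | zero =>
      refine ⟨fun _ => 0, ?_⟩
      rw [Finset.sum_congr rfl fun t _ => xp_zero_right T _, Finset.sum_const_zero]
    | add x y _ _ hx hy =>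
      obtain ⟨b, rfl⟩ := hx
      obtain ⟨b', rfl⟩ := hy
      refine ⟨fun t => b t + b' t, ?_⟩
      rw [← Finset.sum_add_distrib]
      exact Finset.sum_congr rfl fun t _ => (xp_add_right T _ _ _).symm
  obtain ⟨b, rfl⟩ := h1
  have hgr := grL_em T hc.1
  have hdR := hc.2
  rw [em_sum, Finset.sum_congr rfl fun t _ => em_xp T (T.W.cl X (a t)) (b t)] at hgr hdR
  have htype : ∀ t, emL T.W ℂ (T.W.cl X (a t)) ∈ T.pq X ((j t : ℤ), (j t : ℤ)).1
      ((j t : ℤ), (j t : ℤ)).2 := fun t => (T.cyc X (j t) (a t) (ha t)).2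
  have h2 : ∀ t (s : ℤ × ℤ), s.1 + s.2 ≠ 2 * w - 2 * j t → pr T Z s (emL T.W ℂ (b t)) = 0 := by
    intro t s hs
    have h3 : pr T (X.prod Z) (s + ((j t : ℤ), (j t : ℤ)))
        (∑ t, eL T X Z (emL T.W ℂ (T.W.cl X (a t))) (emL T.W ℂ (b t))) = 0 := by
      refine pr_of_grL T hgr ?_
      intro h
      apply hs
      simp only [Prod.fst_add, Prod.snd_add] at h
      push_cast at h
      linarith
    rw [map_sum, Finset.sum_congr rfl fun t' _ => pr_eL T (htype t') _ _] at h3
    have h4 := eq_zero_of_indep T (indep_em T hli) (y := fun t' => pr T Z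
      (s + ((j t : ℤ), (j t : ℤ)) - ((j t' : ℤ), (j t' : ℤ))) (emL T.W ℂ (b t'))) h3 t
    rw [add_sub_cancel_right] at h4
    exact h4
  have h4 : ∀ t, ¬ j t ≤ w → b t = 0 := by
    intro t ht
    apply em_injective T
    rw [em_zero]
    refine eq_of_pr T fun s => ?_
    by_cases hs : s.1 + s.2 < 0
    · exact pr_neg T hs _
    · refine h2 t s ?_
      omega
  have h5 : ∀ t, j t ≤ w → b t ∈ T.W.gr Z (2 * (w - j t)) := by
    intro t ht
    refine gr_of_em T (mem_grL_of_pr T fun s hs => h2 t s ?_)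
    intro h
    apply hs
    push_cast [ht]
    linarith
  -- the de Rham property
  have hind : LinearIndependent ℂ fun t => twoPiI ^ j t • emL T.W ℂ (T.W.cl X (a t)) := by
    have h6 := (indep_em T hli).units_smul fun t => Units.mk0 (twoPiI ^ j t)
      (pow_ne_zero _ twoPiI_ne)
    exact h6
  have h7 : (twoPiI ^ w • ∑ t, eL T X Z (emL T.W ℂ (T.W.cl X (a t))) (emL T.W ℂ (b t)) :
      HL T.W ℂ (X.prod Z)) = ∑ t, eL T X Z (twoPiI ^ j t • emL T.W ℂ (T.W.cl X (a t)))
        (twoPiI ^ (w - j t) • emL T.W ℂ (b t)) := by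
    rw [Finset.smul_sum]
    refine Finset.sum_congr rfl fun t _ => ?_
    rw [map_smul, map_smul, LinearMap.smul_apply, smul_smul]
    by_cases ht : j t ≤ w
    · rw [← pow_add, Nat.sub_add_cancel ht]
    · rw [h4 t ht, em_zero, map_zero, smul_zero, smul_zero]
  have h8 : ∀ t, twoPiI ^ (w - j t) • emL T.W ℂ (b t) ∈ D.dR Z := by
    intro t
    obtain ⟨θ, hθ, hθe⟩ := exists_dual D hind (fun t => D.cyc X (j t) (a t) (ha t)) t
    have h9 := ctr_dR D hθ hdR
    rw [twL_eq, h7, map_sum, Finset.sum_eq_single t, ctr_eL, hθe, if_pos rfl, one_smul] at h9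
    · exact h9
    · intro s _ hs
      rw [ctr_eL, hθe, if_neg hs, zero_smul]
    · exact fun h => absurd (Finset.mem_univ t) h
  refine Submodule.sum_mem _ fun t _ => ?_
  by_cases ht : j t ≤ w
  · exact Submodule.subset_span ⟨j t, w - j t, a t, b t, Nat.add_sub_cancel' ht, ha t,
      ⟨h5 t ht, h8 t⟩, rfl⟩
  · rw [h4 t ht, xp_zero_right]
    exact Submodule.zero_mem _

end Pool.Agent.U222.DBO.I
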