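import Pool.Agent.U222.DB.Lin

/-!
# The vanishing of the components of de Rham-Betti classes
-/

set_option autoImplicit false

open CategoryTheory AlgebraicGeometry TensorProduct

universe u

namespace Pool.Agent.U222.DBO.I

open Pool.Agent.H914 Pool.Agent.H914.VarClass Pool.Agent.H914.VarClass.Obj Pool.Agent.Y121.AHS
  Pool.Agent.U222.HC.I
open Pool.Agent.U222.HC (GVar conj Sub Has IsCombination)

section Lin

lemma finrank_range_le {P V : Type*} [AddCommGroup P] [Module ℂ P] [FiniteDimensional ℂ P]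
    [AddCommGroup V] [Module ℂ V] [FiniteDimensional ℂ V]
    (G : Submodule ℂ P) (f : Module.Dual ℂ P →ₗ[ℂ] V)
    (h : ∀ θ : Module.Dual ℂ P, (∀ v ∈ G, θ v = 0) → f θ = 0) :
    Module.finrank ℂ (LinearMap.range f) ≤ Module.finrank ℂ G := by
  let r : Module.Dual ℂ P →ₗ[ℂ] Module.Dual ℂ G := G.subtype.dualMap
  have h1 : LinearMap.ker r ≤ LinearMap.ker f := by
    intro θ hθ
    rw [LinearMap.mem_ker] at hθ ⊢
    refine h θ fun v hv => ?_
    exact LinearMap.congr_fun hθ ⟨v, hv⟩
  have h2 := LinearMap.finrank_range_add_finrank_ker f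
  have h3 := LinearMap.finrank_range_add_finrank_ker r
  have h4 := Submodule.finrank_mono h1
  have h5 := Submodule.finrank_le (LinearMap.range r)
  rw [Subspace.dual_finrank_eq] at h5
  omega

end Lin

variable {k : Type u} [Field k] {𝒱 : VarClass k} {ops : CycleOps 𝒱} (T : HodgeTheory ops)
  {X Y Z : 𝒱.Obj}

lemma twL_eq (z : ℂ) (j : ℕ) (x : HL T.W ℂ X) : twL z j x = z ^ j • x := rfl

lemma prS_pl (S : ℤ × ℤ → Prop) (f : X ⟶ Y) (x : HL T.W ℂ Y) :
    prS T X S (pl T f x) = pl T f (prS T Y S x) := by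
  classical
  induction x using ty_ind T with
  | h0 => rw [map_zero, map_zero, map_zero, map_zero]
  | ha x y hx hy => rw [map_add, map_add, map_add, map_add, hx, hy]
  | he r x hx =>
    have h1 : pl T f x ∈ T.pq X r.1 r.2 := T.map _ _ _ _ _ _ hx
    rw [prS_of_mem T S h1, prS_of_mem T S hx]
    split_ifs
    · rfl
    · rw [map_zero]

lemma pl_grL (f : X ⟶ Y) {i : ℕ} {x : HL T.W ℂ Y} (hx : x ∈ grL T.W ℂ Y i) :
    pl T f x ∈ grL T.W ℂ X i := by
  rw [T.span Y i] at hx
  rw [T.span X i]
  induction hx using Submodule.iSup_induction' with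
  | mem r x hx => exact Submodule.mem_iSup_of_mem r (T.map _ _ _ _ _ _ hx)
  | zero => rw [map_zero]; exact Submodule.zero_mem _
  | add x y _ _ hx hy => rw [map_add]; exact Submodule.add_mem _ hx hy

/-- For a homogeneous class on a product the degrees for the two factors are complementary. -/
lemma op_prD {n : ℕ} {x : HL T.W ℂ (X.prod Y)} (hx : x ∈ grL T.W ℂ (X.prod Y) n) (e : ℤ) :
    op2 T (prD T Y (n - e)) x = op1 T (prD T X e) x := by
  rw [T.span (X.prod Y) n] at hx
  induction hx using Submodule.iSup_induction' with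
  | mem t x hx =>
    rw [prD, op_prS T hx, prD]
    have h1 : (fun r : ℤ × ℤ => (t.1 - r).1 + (t.1 - r).2 = (n : ℤ) - e) =
        fun r : ℤ × ℤ => r.1 + r.2 = e := by
      funext r
      have h2 := t.2
      rw [Prod.fst_sub, Prod.snd_sub]
      apply propext
      constructor
      · intro h; linarith
      · intro h; linarith
    rw [h1]
  | zero => rw [map_zero, map_zero]
  | add x y _ _ hx hy => rw [map_add, map_add, hx, hy]

lemma prD_mem {i : ℕ} (x : HL T.W ℂ X) : prD T X i x ∈ grL T.W ℂ X i := by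
  induction x using dg_ind T with
  | h0 => rw [map_zero]; exact Submodule.zero_mem _
  | ha x y hx hy => rw [map_add]; exact Submodule.add_mem _ hx hy
  | he j x hx =>
    rw [prD_of_mem T hx]
    split_ifs with h
    · have h1 : j = i := by exact_mod_cast h
      exact h1 ▸ hx
    · exact Submodule.zero_mem _

lemma prD_neg {d : ℤ} (hd : d < 0) (x : HL T.W ℂ X) : prD T X d x = 0 := by
  induction x using dg_ind T with
  | h0 => rw [map_zero]
  | ha x y hx hy => rw [map_add, hx, hy, add_zero]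
  | he j x hx =>
    rw [prD_of_mem T hx, if_neg]
    omega

lemma grL_em {i : ℕ} {c : T.W.H X} (hc : c ∈ T.W.gr X i) : emL T.W ℂ c ∈ grL T.W ℂ X i :=
  Submodule.tmul_mem_baseChange_of_mem (1 : ℂ) hc

lemma conj_op1_prD (σ : ℂ ≃+* ℂ) (d : ℤ) (x : HL T.W ℂ (X.prod Y)) :
    conj T σ (op1 T (prD T X d) x) = op1 T (prD T X d) (conj T σ x) := by
  induction x using kn_ind T with
  | h0 => rw [map_zero, conj_zero, map_zero]
  | ha x y hx hy => rw [map_add, conj_add, conj_add, map_add, hx, hy]
  | he a b => rw [op1_eL, conj_eL, conj_eL, op1_eL, conj_prD]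

lemma prD_prD (d : ℤ) (x : HL T.W ℂ X) : prD T X d (prD T X d x) = prD T X d x := by
  induction x using dg_ind T with
  | h0 => rw [map_zero, map_zero]
  | ha x y hx hy => rw [map_add, map_add, hx, hy]
  | he j x hx =>
    by_cases h : (j : ℤ) = d
    · rw [prD_of_mem T hx, if_pos h, prD_of_mem T hx, if_pos h]
    · rw [prD_of_mem T hx, if_neg h, map_zero]

variable {T} {F : Subfield ℂ} (D : DeRham T F)

/-- The components of de Rham classes are de Rham classes. -/
lemma prD_dR (d : ℤ) {x : HL T.W ℂ X} (hx : x ∈ D.dR X) : prD T X d x ∈ D.dR X := by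
  set S : Set (HL T.W ℂ X) := {v | v ∈ D.dR X ∧ ∃ i, v ∈ grL T.W ℂ X i} with hS
  have h1 : x ∈ Submodule.span F S := by
    refine mem_of_span D (Submodule.span F S) (fun v hv => ?_) ?_ hx
    · exact (Submodule.span_le (p := sub D X)).2 (fun v hv => hv.1) hv
    · rw [eq_top_iff, ← grL_top T X]
      refine iSup_le fun i v hv => ?_
      refine Submodule.span_mono ?_ (span_gr D X hv)
      intro y hy
      exact Submodule.subset_span (show y ∈ S from ⟨hy.1, i, hy.2⟩)
  clear hx
  induction h1 using Submodule.span_induction with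
  | mem v hv =>
    obtain ⟨hv, i, hi⟩ := hv
    rw [prD_of_mem T hi]
    split_ifs
    · exact hv
    · exact D.zero _
  | zero => rw [map_zero]; exact D.zero _
  | add a b _ _ ha hb => rw [map_add]; exact D.add _ _ ha _ hb
  | smul r a _ ha =>
    have h2 : r • a = (r : ℂ) • a := rfl
    rw [h2, map_smul]
    exact D.smul _ r.1 r.2 _ ha

/-- **The vanishing of the components of de Rham-Betti classes in `H¹(X) ⊗ H(Z)`.** -/
theorem comp_dRB_zero (hW : WuestholzTheorem D) {w b : ℕ} {c : T.W.H (X.prod Z)}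
    (hc : IsDRB D (X.prod Z) w c) (hb : 0 < w → bettiNumber T Z (2 * w - 1) ≤ b)
    (hwide : ∀ U : Sub T X, HC.IsSubstructure T 1 U → (∀ x, Has T U x → IsDeg 1 x) →
      (∃ x, Has T U x ∧ x ≠ 0) → b < Module.finrank ℂ (show Submodule ℂ (HL T.W ℂ X) from U)) :
    op1 T (prD T X 1) (emL T.W ℂ c) = 0 := by
  classical
  set z : HL T.W ℂ (X.prod Z) := op1 T (prD T X 1) (emL T.W ℂ c) with hz
  have htwo : op2 T (prD T Z ((2 * w : ℕ) - 1)) z = z := by
    rw [hz, ← op_prD T (grL_em T hc.1) 1]
    refine sub_eq_zero.1 (eq_zero_of_ctr T fun θ => ?_)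
    rw [map_sub, ctr_op2, ctr_op2, prD_prD, sub_self]
  by_contra hne
  have hw : 0 < w := by
    rcases Nat.eq_zero_or_pos w with rfl | h
    · exfalso
      apply hne
      rw [← htwo]
      refine eq_zero_of_ctr T fun θ => ?_
      rw [ctr_op2]
      exact prD_neg T (by norm_num) _
    · exact h
  set U : Submodule ℂ (HL T.W ℂ X) := LinearMap.range (cmap T z) with hUdef
  have hdeg : ∀ x, Has T (X := X) U x → IsDeg 1 x := by
    rintro _ ⟨θ, rfl⟩
    show cmap T z θ ∈ grL T.W ℂ X 1
    rw [cmap_apply, hz, ctr2_op1]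
    exact prD_mem T (i := 1) _
  have hUsub : HC.IsSubstructure T 1 (X := X) U := by
    refine hW X U hdeg ?_ ?_
    · rintro τ _ ⟨θ, rfl⟩
      refine ⟨cf T τ θ, ?_⟩
      rw [cmap_apply, cmap_apply, conj_ctr2]
      congr 1
      rw [hz, conj_op1_prD, conj_em]
    · rintro _ ⟨θ, rfl⟩
      obtain ⟨ι, _, e, he⟩ := exists_coord D Z
      have h1 : θ = ∑ i, θ (e i) • e.coord i := by
        refine e.ext fun l => ?_
        rw [LinearMap.sum_apply, Finset.sum_eq_single l]
        · rw [LinearMap.smul_apply, Module.Basis.coord_apply, Module.Basis.repr_self,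
            Finsupp.single_eq_same, smul_eq_mul, mul_one]
        · intro i _ hi
          rw [LinearMap.smul_apply, Module.Basis.coord_apply, Module.Basis.repr_self,
            Finsupp.single_eq_of_ne hi, smul_zero]
        · exact fun h => absurd (Finset.mem_univ l) h
      show cmap T z θ ∈ Submodule.span ℂ _
      rw [h1, map_sum]
      refine Submodule.sum_mem _ fun i _ => ?_
      rw [map_smul]
      refine Submodule.smul_mem _ _ ?_
      have h2 : (twoPiI ^ w) • cmap T z (e.coord i) ∈ D.dR X := by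
        rw [cmap_apply, hz, ctr2_op1, ← map_smul, ← map_smul]
        exact prD_dR D 1 (ctr2_dR D (he i) hc.2)
      have h3 : cmap T z (e.coord i) = (twoPiI ^ w)⁻¹ • ((twoPiI ^ w) • cmap T z (e.coord i)) := by
        rw [smul_smul, inv_mul_cancel₀ (pow_ne_zero _ twoPiI_ne), one_smul]
      rw [h3]
      refine Submodule.smul_mem _ _ (Submodule.subset_span ⟨?_, h2⟩)
      exact U.smul_mem _ ⟨_, rfl⟩
  obtain ⟨θ, hθ⟩ := not_forall.1 fun h => hne (eq_zero_of_ctr2 T h)
  have h0 := hwide U hUsub hdeg ⟨ctr2 T θ z, ⟨θ, rfl⟩, hθ⟩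
  have h1 : Module.finrank ℂ U ≤ b := by
    refine le_trans ?_ (hb hw)
    refine finrank_range_le (grL T.W ℂ Z (2 * w - 1)) (cmap T z) fun φ hφ => ?_
    rw [cmap_apply, ← htwo, ctr2_op2]
    have h2 : φ ∘ₗ prD T Z ((2 * w : ℕ) - 1) = 0 := by
      refine LinearMap.ext fun y => ?_
      rw [LinearMap.comp_apply, LinearMap.zero_apply]
      refine hφ _ ?_
      have h3 : (((2 * w : ℕ) : ℤ) - 1) = ((2 * w - 1 : ℕ) : ℤ) := by omega
      rw [h3]
      exact prD_mem T y
    rw [h2]
    exact (cmap T z).map_zero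
  exact absurd h0 (not_lt.2 h1)

end Pool.Agent.U222.DBO.I
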